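import Pool.Agent.H605.Web.Theta
import Pool.Graph.R_seed8.W46.KK.Final

/-!
# One slab: from progressions to volumes
-/

set_option autoImplicit false

open Finset MeasureTheory
open scoped ENNReal

namespace Pool.Agent.H605.Web

open Pool.Agent.W46.KK

/-- the integer with the digits `u` in base `M + 1` -/
def code {d M : ℕ} (u : Fin d → Fin (M + 1)) : ℕ := ∑ i, (u i : ℕ) * (M + 1) ^ (i : ℕ)

theorem code_eq {d M : ℕ} (u : Fin d → Fin (M + 1)) :
    code u = (finFunctionFinEquiv u : ℕ) := by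
  rw [finFunctionFinEquiv_apply]
  rfl

theorem code_lt {d M : ℕ} (u : Fin d → Fin (M + 1)) : code u < (M + 1) ^ d := by
  rw [code_eq]
  exact (finFunctionFinEquiv u).isLt

theorem code_inj {d M : ℕ} : Function.Injective (code : (Fin d → Fin (M + 1)) → ℕ) := by
  intro u v h
  rw [code_eq, code_eq] at h
  exact finFunctionFinEquiv.injective (Fin.ext h)

theorem code_pos {d M : ℕ} {u : Fin d → Fin (M + 1)} (h : u ≠ 0) : 1 ≤ code u := by
  have h0 : code (0 : Fin d → Fin (M + 1)) = 0 := by simp [code]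
  rcases Nat.eq_zero_or_pos (code u) with h1 | h1
  · exact absurd (code_inj (h1.trans h0.symm)) h
  · exact h1

/-- The counting step: the positions at the times `t₀ + j τ`, `j < k`, together. -/
theorem count_positions {d M k N : ℕ} {K A δ : ℝ} (hM : 1 ≤ M) (hk : K < k)
    (hN : (M + 1) ^ d ≤ N) (hδ : 0 < δ)
    (hKP : ∀ D : Finset ℕ, (∀ n ∈ D, 1 ≤ n ∧ n ≤ N) → ∀ E : Finset ℤ,
      (∀ n ∈ D, HasAP E K n) → (D.card : ℝ) ≤ A * E.card)
    (V : Finset (Fin d → Fin (M + 1))) (hV : ∀ u ∈ V, u ≠ 0)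
    (p : (Fin d → Fin (M + 1)) → Fin d → ℝ) (t₀ : ℝ) (hA : 0 ≤ A) :
    (V.card : ℝ) ≤ A * ∑ j ∈ range k, ((V.image fun u => fl δ fun i =>
      p u i + (t₀ + j * (M * δ)) * ((u i : ℕ) / M : ℝ)).card : ℝ) := by
  classical
  have hMr : (0 : ℝ) < M := by exact_mod_cast hM
  -- the cell is `x u + j u`
  have hcell : ∀ u : Fin d → Fin (M + 1), ∀ j : ℕ, (fl δ fun i =>
      p u i + (t₀ + j * (M * δ)) * ((u i : ℕ) / M : ℝ)) =
      (fun i => ⌊(p u i + t₀ * ((u i : ℕ) / M : ℝ)) / δ⌋ + (j : ℤ) * (u i : ℕ)) := by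
    intro u j
    funext i
    rw [fl]
    have e : (p u i + (t₀ + j * (M * δ)) * ((u i : ℕ) / M : ℝ)) / δ =
        (p u i + t₀ * ((u i : ℕ) / M : ℝ)) / δ + (((j : ℤ) * (u i : ℕ) : ℤ) : ℝ) := by
      push_cast
      field_simp
      ring
    rw [e, Int.floor_add_intCast]
  obtain ⟨E, hE⟩ : ∃ E : Finset (Fin d → ℤ), E = (range k).biUnion fun j =>
    V.image fun u => fl δ fun i => p u i + (t₀ + j * (M * δ)) * ((u i : ℕ) / M : ℝ) := ⟨_, rfl⟩
  have h1 := hKP (V.image code) (by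
      intro n hn
      obtain ⟨u, hu, rfl⟩ := mem_image.1 hn
      exact ⟨code_pos (hV u hu), (code_lt u).le.trans hN⟩)
    (E.image fun z => ∑ i : Fin d, z i * ((M : ℤ) + 1) ^ (i : ℕ)) (by
      intro n hn
      obtain ⟨u, hu, rfl⟩ := mem_image.1 hn
      refine ⟨∑ i, ⌊(p u i + t₀ * ((u i : ℕ) / M : ℝ)) / δ⌋ * ((M : ℤ) + 1) ^ (i : ℕ),
        fun j hj => ?_⟩
      have hjk : j < k := by
        have : (j : ℝ) < k := lt_of_le_of_lt hj hk
        exact_mod_cast this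
      rw [mem_image]
      refine ⟨fun i => ⌊(p u i + t₀ * ((u i : ℕ) / M : ℝ)) / δ⌋ + (j : ℤ) * (u i : ℕ), ?_, ?_⟩
      · rw [hE, mem_biUnion]
        exact ⟨j, mem_range.2 hjk, mem_image.2 ⟨u, hu, hcell u j⟩⟩
      · rw [code]
        push_cast
        rw [Finset.mul_sum, ← Finset.sum_add_distrib]
        refine Finset.sum_congr rfl fun i _ => ?_
        ring)
  rw [card_image_of_injective _ code_inj] at h1
  refine h1.trans (mul_le_mul_of_nonneg_left ?_ hA)
  have h2 : (E.image fun z => ∑ i : Fin d, z i * ((M : ℤ) + 1) ^ (i : ℕ)).card ≤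
      ∑ j ∈ range k, (V.image fun u => fl δ fun i =>
        p u i + (t₀ + j * (M * δ)) * ((u i : ℕ) / M : ℝ)).card := by
    refine card_image_le.trans ?_
    rw [hE]
    exact card_biUnion_le
  exact_mod_cast h2

/-- one slab -/
theorem slab_volume {d M k N : ℕ} {K A δ : ℝ} (hM : 1 ≤ M) (hk : K < k)
    (hN : (M + 1) ^ d ≤ N) (hδ : 0 < δ) (hA : 0 < A)
    (hKP : ∀ D : Finset ℕ, (∀ n ∈ D, 1 ≤ n ∧ n ≤ N) → ∀ E : Finset ℤ,
      (∀ n ∈ D, HasAP E K n) → (D.card : ℝ) ≤ A * E.card)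
    (V : Finset (Fin d → Fin (M + 1))) (hV : ∀ u ∈ V, u ≠ 0)
    (p : (Fin d → Fin (M + 1)) → Fin d → ℝ) (a μ : ℝ) (hμ : k * (M * δ) ≤ μ)
    (T : Set (ℝ × (Fin d → ℝ))) (hT : MeasurableSet T)
    (hfam : ∀ u ∈ V, ∀ t ∈ Set.Icc a (a + μ), ∀ y : Fin d → ℝ,
      (∀ i, |y i - (p u i + t * ((u i : ℕ) / M : ℝ))| ≤ δ) → (t, y) ∈ T) :
    ENNReal.ofReal (M * δ * (δ ^ d * (V.card / A))) ≤
      volume (T ∩ (Set.Ico a (a + μ) ×ˢ Set.univ)) := by
  classical
  have hMr : (0 : ℝ) < M := by exact_mod_cast hM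
  obtain ⟨τ, hτ⟩ : ∃ τ : ℝ, τ = M * δ := ⟨_, rfl⟩
  have hτ0 : 0 < τ := by rw [hτ]; positivity
  rw [← hτ] at hμ ⊢
  -- the pieces
  obtain ⟨P, hP⟩ : ∃ P : ℕ → Set (ℝ × (Fin d → ℝ)), P = fun j : ℕ =>
    T ∩ (Set.Ico (a + j * τ) (a + j * τ + τ) ×ˢ Set.univ) := ⟨_, rfl⟩
  have hPm : ∀ j, MeasurableSet (P j) := by
    intro j
    rw [hP]
    exact hT.inter (measurableSet_Ico.prod MeasurableSet.univ)
  have hdisj : ((range k : Finset ℕ) : Set ℕ).PairwiseDisjoint P := by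
    intro i _ j _ hij
    rw [Function.onFun, Set.disjoint_left]
    rintro ⟨t, y⟩ h1 h2
    rw [hP] at h1 h2
    obtain ⟨-, h3, -⟩ := h1
    obtain ⟨-, h4, -⟩ := h2
    simp only [Set.mem_Ico] at h3 h4
    apply hij
    have a1 : (i : ℝ) * τ < (j + 1) * τ := by linarith [h3.1, h4.2]
    have a2 : (j : ℝ) * τ < (i + 1) * τ := by linarith [h4.1, h3.2]
    have b1 := lt_of_mul_lt_mul_right a1 hτ0.le
    have b2 := lt_of_mul_lt_mul_right a2 hτ0.le
    have c1 : i < j + 1 := by exact_mod_cast b1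
    have c2 : j < i + 1 := by exact_mod_cast b2
    omega
  have hsub : ∀ j ∈ range k, P j ⊆ T ∩ (Set.Ico a (a + μ) ×ˢ Set.univ) := by
    intro j hj
    rw [mem_range] at hj
    rw [hP]
    rintro ⟨t, y⟩ ⟨h1, h2, h3⟩
    refine ⟨h1, ?_, h3⟩
    simp only [Set.mem_Ico] at h2 ⊢
    have hj0 : (0 : ℝ) ≤ j * τ := by positivity
    have hj1 : ((j : ℝ) + 1) * τ ≤ k * τ :=
      mul_le_mul_of_nonneg_right (by exact_mod_cast hj) hτ0.le
    constructor
    · linarith [h2.1]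
    · linarith [h2.2]
  have hsum : ∑ j ∈ range k, volume (P j) ≤ volume (T ∩ (Set.Ico a (a + μ) ×ˢ Set.univ)) := by
    rw [← measure_biUnion_finset hdisj fun j _ => hPm j]
    exact measure_mono (Set.iUnion₂_subset hsub)
  refine le_trans ?_ hsum
  -- slices
  obtain ⟨G, hG⟩ : ∃ G : ℕ → ℝ → ℝ≥0∞, G = fun j t => volume (Prod.mk t ⁻¹' P j) := ⟨_, rfl⟩
  have hGm : ∀ j, Measurable (G j) := by
    intro j
    rw [hG]
    exact measurable_measure_prodMk_left (hPm j)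
  have hGint : ∀ j, ∫⁻ s, G j (s + (a + j * τ)) = volume (P j) := by
    intro j
    rw [lintegral_add_right_eq_self (fun t => G j t) (a + j * τ), hG]
    simp only
    rw [Measure.volume_eq_prod, Measure.prod_apply (hPm j)]
  have hGge : ∀ s ∈ Set.Ico (0 : ℝ) τ, ENNReal.ofReal (δ ^ d * (V.card / A)) ≤
      ∑ j ∈ range k, G j (s + (a + j * τ)) := by
    intro s hs
    have h1 : ∀ j ∈ range k, ((V.image fun u => fl δ fun i =>
        p u i + ((a + s) + j * (M * δ)) * ((u i : ℕ) / M : ℝ)).card : ℝ≥0∞) *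
        ENNReal.ofReal δ ^ d ≤ G j (s + (a + j * τ)) := by
      intro j hj
      rw [hG]
      refine card_mul_le hδ V
        (fun u i => p u i + ((a + s) + j * (M * δ)) * ((u i : ℕ) / M : ℝ)) _ ?_
      intro u hu y hy
      have hj2 := mem_range.1 hj
      have hj0 : (0 : ℝ) ≤ j * τ := by positivity
      have hj1 : ((j : ℝ) + 1) * τ ≤ k * τ :=
        mul_le_mul_of_nonneg_right (by exact_mod_cast hj2) hτ0.le
      have e : s + (a + j * τ) = (a + s) + j * (M * δ) := by rw [← hτ]; ring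
      rw [Set.mem_preimage, hP]
      refine ⟨hfam u hu _ ⟨by linarith [hs.1], by linarith [hs.2]⟩ y ?_, ?_, Set.mem_univ _⟩
      · rw [e]
        exact hy
      · simp only [Set.mem_Ico]
        constructor
        · linarith [hs.1]
        · linarith [hs.2]
    refine le_trans ?_ (Finset.sum_le_sum h1)
    rw [← Finset.sum_mul, ← ENNReal.ofReal_pow hδ.le]
    have h2 := count_positions hM hk hN hδ hKP V hV p (a + s) hA.le
    have h3 : δ ^ d * (V.card / A) ≤ (∑ j ∈ range k, ((V.image fun u => fl δ fun i =>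
        p u i + ((a + s) + j * (M * δ)) * ((u i : ℕ) / M : ℝ)).card : ℝ)) * δ ^ d := by
      rw [mul_comm]
      apply mul_le_mul_of_nonneg_right _ (by positivity)
      rw [div_le_iff₀ hA]
      linarith
    refine (ENNReal.ofReal_le_ofReal h3).trans (le_of_eq ?_)
    rw [ENNReal.ofReal_mul (Finset.sum_nonneg fun _ _ => Nat.cast_nonneg _),
      ENNReal.ofReal_sum_of_nonneg fun _ _ => Nat.cast_nonneg _]
    congr 1
    refine Finset.sum_congr rfl fun j _ => ?_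
    rw [ENNReal.ofReal_natCast]
  calc ENNReal.ofReal (τ * (δ ^ d * (V.card / A)))
      = ∫⁻ _s in Set.Ico (0 : ℝ) τ, ENNReal.ofReal (δ ^ d * (V.card / A)) := by
        rw [setLIntegral_const, Real.volume_Ico, sub_zero, mul_comm τ,
          ENNReal.ofReal_mul (by positivity)]
    _ ≤ ∫⁻ s in Set.Ico (0 : ℝ) τ, ∑ j ∈ range k, G j (s + (a + j * τ)) :=
        setLIntegral_mono' measurableSet_Ico hGge
    _ ≤ ∫⁻ s, ∑ j ∈ range k, G j (s + (a + j * τ)) := setLIntegral_le_lintegral _ _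
    _ = ∑ j ∈ range k, ∫⁻ s, G j (s + (a + j * τ)) := by
        rw [lintegral_finsetSum]
        exact fun j _ => (hGm j).comp (measurable_id.add_const _)
    _ = ∑ j ∈ range k, volume (P j) := Finset.sum_congr rfl fun j _ => hGint j

end Pool.Agent.H605.Web
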