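import Pool.Agent.H605.Web.Windows
import Pool.Graph.R_seed8.H170R2.PC.Asym

/-!
# Consequences of the discrete Kakeya statement
-/

set_option autoImplicit false

open Finset Filter N047c7463

namespace Pool.Agent.H605.Web

open Pool.Agent.H170R2.PC

theorem ev_pow (C : ℝ) {η : ℝ} (hη : 0 < η) : ∀ᶠ N : ℕ in atTop, C ≤ (N : ℝ) ^ η :=
  ((tendsto_rpow_atTop hη).comp tendsto_natCast_atTop_atTop).eventually_ge_atTop C

theorem part_le_covered {α : ℝ} {N : ℕ} (a : (p : ℕ) → ZMod p) (v : ℕ) (hv : v ≤ N) :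
    (Part (PD α N) (fun p => ((a p).val : ℤ)) 0 v).card ≤ coveredCount α N a := by
  classical
  rw [coveredCount_eq]
  apply Finset.card_le_card_of_injOn Int.toNat
  · intro y hy
    rw [mem_coe, mem_Part] at hy
    obtain ⟨⟨h1, h2⟩, p, hp, h3⟩ := hy
    rw [mem_coe, Cov, mem_filter, mem_Icc]
    refine ⟨⟨by omega, by omega⟩, p, hp, ?_⟩
    have hpp : p.Prime := (mem_PD.1 hp).1
    have : NeZero p := ⟨hpp.ne_zero⟩
    have h4 : ((y.toNat : ℤ) : ZMod p) = (((a p).val : ℤ) : ZMod p) := by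
      rw [← sub_eq_zero, ← Int.cast_sub, ZMod.intCast_zmod_eq_zero_iff_dvd]
      rwa [Int.toNat_of_nonneg (by omega)]
    rw [Int.cast_natCast, Int.cast_natCast, ZMod.natCast_val, ZMod.cast_id', id] at h4
    exact h4
  · intro y hy z hz hyz
    rw [mem_coe, mem_Part] at hy hz
    have h1 := hy.1.1
    have h2 := hz.1.1
    omega

theorem lowerExponent_of_sets (h : DiscreteKakeyaSets) {α : ℝ} (hα : 0 < α) (hα1 : α < 1) :
    LowerExponent α 1 := by
  intro ε hε
  obtain ⟨δ, hδ⟩ : ∃ δ, δ = min ε (1 - α) / 8 := ⟨_, rfl⟩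
  have hmin : 0 < min ε (1 - α) := lt_min hε (by linarith)
  have hδ0 : 0 < δ := by rw [hδ]; positivity
  have hδ1 : 8 * δ ≤ ε := by
    rw [hδ]
    have := min_le_left ε (1 - α)
    linarith
  have hδ2 : 8 * δ ≤ 1 - α := by
    rw [hδ]
    have := min_le_right ε (1 - α)
    linarith
  obtain ⟨M₀, hM₀⟩ := h δ hδ0
  have hev : ∀ᶠ N : ℕ in atTop, (N : ℝ) ^ (1 - ε) ≤ (N : ℝ) ^ (1 - ε) ∧
      ∀ a : (p : ℕ) → ZMod p, (N : ℝ) ^ (1 - ε) ≤ (coveredCount α N a : ℝ) := by
    filter_upwards [ev_card hα hα1.le hδ0 (by linarith), ev_pow (M₀ : ℝ) hα, ev_pow 1 hα,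
      ev_pow 162 hδ0, eventually_ge_atTop 2] with N h1 h2 h3 h4 hN
    refine ⟨le_rfl, fun a => ?_⟩
    have hNr : (1 : ℝ) ≤ N := by exact_mod_cast (by omega : 1 ≤ N)
    have hN0 : (0 : ℝ) < N := by linarith
    obtain ⟨x, hx⟩ : ∃ x, x = (N : ℝ) ^ α := ⟨_, rfl⟩
    rw [← hx] at h2 h3
    obtain ⟨M, hM⟩ : ∃ M, M = ⌈2 * x⌉₊ := ⟨_, rfl⟩
    have hM1 : 2 * x ≤ M := by rw [hM]; exact Nat.le_ceil _
    have hM2 : (M : ℝ) ≤ 3 * x := by
      have : (M : ℝ) < 2 * x + 1 := by rw [hM]; exact Nat.ceil_lt_add_one (by linarith)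
      linarith
    have hMM : M₀ ≤ M := by
      have : (M₀ : ℝ) ≤ M := by linarith
      exact_mod_cast this
    have hMr : (1 : ℝ) ≤ M := by linarith
    have hM0 : (0 : ℝ) < M := by linarith
    have hD : ∀ d ∈ PD α N, 1 ≤ d ∧ d ≤ M := by
      intro d hd
      have h5 := mem_PD.1 hd
      refine ⟨h5.1.one_le, ?_⟩
      have h6 : (d : ℝ) ≤ M := by
        have := h5.2.2
        rw [← hx] at this
        linarith
      exact_mod_cast h6
    obtain ⟨K, hK⟩ : ∃ K, K = (M : ℝ) ^ δ := ⟨_, rfl⟩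
    have hK1 : 1 ≤ K := by rw [hK]; exact Real.one_le_rpow hMr hδ0.le
    obtain ⟨L, hL⟩ : ∃ L, L = ⌈(K + 1) * M⌉₊ := ⟨_, rfl⟩
    have hL1 : (K + 1) * M ≤ L := by rw [hL]; exact Nat.le_ceil _
    have hKM : 1 ≤ K * M := by nlinarith
    have hL2 : (L : ℝ) ≤ 3 * (K * M) := by
      have : (L : ℝ) < (K + 1) * M + 1 := by
        rw [hL]; exact Nat.ceil_lt_add_one (by positivity)
      nlinarith
    have hL0 : (0 : ℝ) < L := by nlinarith
    have hL0' : 0 < L := by exact_mod_cast hL0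
    -- `K M = M ^ (1 + δ)`
    have hpow : K * M * K ≤ 27 * (N : ℝ) ^ (α + 2 * δ) := by
      have e1 : K * M * K = (M : ℝ) ^ (1 + 2 * δ) := by
        rw [hK]
        have : (M : ℝ) = (M : ℝ) ^ (1 : ℝ) := (Real.rpow_one _).symm
        conv_lhs => rw [mul_comm _ (M : ℝ), this]
        rw [← Real.rpow_mul hM0.le, ← Real.rpow_add hM0, ← Real.rpow_add hM0]
        congr 1
        ring
      rw [e1]
      calc (M : ℝ) ^ (1 + 2 * δ) ≤ (3 * x) ^ (1 + 2 * δ) :=
            Real.rpow_le_rpow hM0.le hM2 (by linarith)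
        _ = (3 : ℝ) ^ (1 + 2 * δ) * x ^ (1 + 2 * δ) :=
            Real.mul_rpow (by norm_num) (by linarith)
        _ ≤ 27 * (N : ℝ) ^ (α + 2 * δ) := by
            apply mul_le_mul _ _ (by positivity) (by norm_num)
            · calc (3 : ℝ) ^ (1 + 2 * δ) ≤ (3 : ℝ) ^ (3 : ℝ) :=
                  Real.rpow_le_rpow_of_exponent_le (by norm_num) (by linarith)
                _ = 27 := by norm_num
            · rw [hx, ← Real.rpow_mul hN0.le]
              apply Real.rpow_le_rpow_of_exponent_le hNr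
              nlinarith
    have hLN : (L : ℝ) ≤ N := by
      calc (L : ℝ) ≤ 3 * (K * M) := hL2
        _ ≤ 3 * (K * M * K) := by nlinarith
        _ ≤ 81 * (N : ℝ) ^ (α + 2 * δ) := by linarith
        _ ≤ (N : ℝ) ^ δ * (N : ℝ) ^ (α + 2 * δ) :=
            mul_le_mul_of_nonneg_right (by linarith) (by positivity)
        _ = (N : ℝ) ^ (δ + (α + 2 * δ)) := by rw [← Real.rpow_add hN0]
        _ ≤ (N : ℝ) ^ (1 : ℝ) := Real.rpow_le_rpow_of_exponent_le hNr (by linarith)
        _ = N := Real.rpow_one _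
    have hLN' : L ≤ N := by exact_mod_cast hLN
    obtain ⟨H, hH⟩ : ∃ H, H = N / L := ⟨_, rfl⟩
    have hH1 : 1 ≤ H := by rw [hH, Nat.one_le_div_iff hL0']; exact hLN'
    have hH2 : H * L ≤ N := by rw [hH]; exact Nat.div_mul_le_self _ _
    have hH3 : (N : ℝ) ≤ 2 * (H * L) := by
      have h5 : N < (H + 1) * L := by
        rw [hH]
        exact Nat.lt_mul_of_div_lt (Nat.lt_succ_self _) hL0'
      have h6 : (N : ℝ) < (H + 1) * L := by exact_mod_cast h5
      have h7 : (1 : ℝ) * L ≤ H * L :=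
        mul_le_mul_of_nonneg_right (by exact_mod_cast hH1) hL0.le
      linarith
    have hw := windows hD (fun E hE => hM₀ M hMM (PD α N) hD E hE)
      (fun p => ((a p).val : ℤ)) L (by rw [← hK]; exact hL1) 0 H
    rw [← hK] at hw
    have h5 : ((Part (PD α N) (fun p => ((a p).val : ℤ)) 0 (0 + H * L)).card : ℝ) ≤
        coveredCount α N a := by
      have := part_le_covered (α := α) (N := N) a (H * L) hH2
      push_cast at this
      rw [zero_add]
      exact_mod_cast this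
    obtain ⟨S, hS⟩ : ∃ S : ℝ, S = coveredCount α N a := ⟨_, rfl⟩
    rw [← hS] at h5 ⊢
    have hS0 : 0 ≤ S := by rw [hS]; exact Nat.cast_nonneg _
    have h6 : (H : ℝ) * (N : ℝ) ^ (α - δ) ≤ K * S := by
      calc (H : ℝ) * (N : ℝ) ^ (α - δ) ≤ H * (PD α N).card :=
            mul_le_mul_of_nonneg_left h1 (Nat.cast_nonneg _)
        _ ≤ _ := hw
        _ ≤ K * S := mul_le_mul_of_nonneg_left h5 (by linarith)
    have h7 : (N : ℝ) * (N : ℝ) ^ (α - δ) ≤ 162 * (N : ℝ) ^ (α + 2 * δ) * S := by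
      calc (N : ℝ) * (N : ℝ) ^ (α - δ) ≤ 2 * (H * L) * (N : ℝ) ^ (α - δ) :=
            mul_le_mul_of_nonneg_right hH3 (by positivity)
        _ = 2 * L * (H * (N : ℝ) ^ (α - δ)) := by ring
        _ ≤ 2 * L * (K * S) := mul_le_mul_of_nonneg_left h6 (by positivity)
        _ ≤ 2 * (3 * (K * M)) * (K * S) := by
            apply mul_le_mul_of_nonneg_right _ (by positivity)
            linarith
        _ = 6 * (K * M * K) * S := by ring
        _ ≤ 6 * (27 * (N : ℝ) ^ (α + 2 * δ)) * S := by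
            apply mul_le_mul_of_nonneg_right _ hS0
            linarith
        _ = _ := by ring
    have h8 : (N : ℝ) ^ (1 - ε) * (162 * (N : ℝ) ^ (α + 2 * δ)) ≤ (N : ℝ) * (N : ℝ) ^ (α - δ) := by
      calc (N : ℝ) ^ (1 - ε) * (162 * (N : ℝ) ^ (α + 2 * δ))
          ≤ (N : ℝ) ^ (1 - ε) * ((N : ℝ) ^ δ * (N : ℝ) ^ (α + 2 * δ)) := by
            apply mul_le_mul_of_nonneg_left _ (by positivity)
            exact mul_le_mul_of_nonneg_right h4 (by positivity)
        _ = (N : ℝ) ^ (1 - ε + (δ + (α + 2 * δ))) := by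
            rw [← Real.rpow_add hN0, ← Real.rpow_add hN0]
        _ ≤ (N : ℝ) ^ (1 + (α - δ)) := Real.rpow_le_rpow_of_exponent_le hNr (by linarith)
        _ = _ := by rw [Real.rpow_add hN0, Real.rpow_one]
    have h9 : (N : ℝ) ^ (1 - ε) * (162 * (N : ℝ) ^ (α + 2 * δ)) ≤
        S * (162 * (N : ℝ) ^ (α + 2 * δ)) := by linarith
    exact le_of_mul_le_mul_right h9 (by positivity)
  obtain ⟨N₀, hN₀⟩ := eventually_atTop.1 hev
  exact ⟨N₀, fun N hN a => (hN₀ N hN).2 a⟩

/-- `f(n, m) ≤ n ^ (1 + η)` for all large `n` -/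
theorem erdos_of_sets (h : DiscreteKakeyaSets) {η : ℝ} (hη : 0 < η) :
    ∀ᶠ n : ℕ in atTop, ∀ m : ℕ, ∃ L : ℕ, HasDivisibleDistinctTuple n m L ∧
      (L : ℝ) ≤ (n : ℝ) ^ (1 + η) := by
  classical
  obtain ⟨δ, hδ⟩ : ∃ δ, δ = min η 1 / 8 := ⟨_, rfl⟩
  have hmin : 0 < min η 1 := lt_min hη one_pos
  have hδ0 : 0 < δ := by rw [hδ]; positivity
  have hδ1 : 8 * δ ≤ η := by
    rw [hδ]
    have := min_le_left η 1
    linarith
  obtain ⟨M₀, hM₀⟩ := h δ hδ0
  filter_upwards [eventually_ge_atTop M₀, eventually_ge_atTop 1, ev_pow 7 hδ0] with n h1 h2 h3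
  intro m
  have hn : (1 : ℝ) ≤ n := by exact_mod_cast h2
  have hn0 : (0 : ℝ) < n := by linarith
  obtain ⟨K, hK⟩ : ∃ K, K = (n : ℝ) ^ δ := ⟨_, rfl⟩
  have hK1 : 1 ≤ K := by rw [hK]; exact Real.one_le_rpow hn hδ0.le
  obtain ⟨Λ, hΛ⟩ : ∃ Λ, Λ = ⌈(K + 1) * n⌉₊ := ⟨_, rfl⟩
  have hΛ1 : (K + 1) * n ≤ Λ := by rw [hΛ]; exact Nat.le_ceil _
  have hKn : 1 ≤ K * n := by nlinarith
  have hΛ2 : (Λ : ℝ) ≤ 3 * (K * n) := by
    have : (Λ : ℝ) < (K + 1) * n + 1 := by rw [hΛ]; exact Nat.ceil_lt_add_one (by positivity)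
    nlinarith
  obtain ⟨H, hH⟩ : ∃ H, H = ⌈K⌉₊ := ⟨_, rfl⟩
  have hH1 : K ≤ H := by rw [hH]; exact Nat.le_ceil _
  have hH2 : (H : ℝ) ≤ 2 * K := by
    have : (H : ℝ) < K + 1 := by rw [hH]; exact Nat.ceil_lt_add_one (by positivity)
    linarith
  refine ⟨H * Λ + 1, ?_, ?_⟩
  · obtain ⟨t, ht⟩ : ∃ t : Fin n → Finset ℕ, t = fun i =>
      (Ioc m (m + H * Λ)).filter fun y => (i.val + 1) ∣ y := ⟨_, rfl⟩
    have hall : ∀ s : Finset (Fin n), s.card ≤ (s.biUnion t).card := by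
      intro s
      obtain ⟨D, hDd⟩ : ∃ D, D = s.image (fun i : Fin n => i.val + 1) := ⟨_, rfl⟩
      have hDc : D.card = s.card := by
        rw [hDd, Finset.card_image_of_injective]
        intro i j hij
        simp only at hij
        exact Fin.ext (by omega)
      have hD : ∀ d ∈ D, 1 ≤ d ∧ d ≤ n := by
        intro d hd
        rw [hDd, mem_image] at hd
        obtain ⟨i, -, rfl⟩ := hd
        have := i.isLt
        omega
      have hw := windows hD (fun E hE => hM₀ n h1 D hD E hE) (fun _ => 0) Λ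
        (by rw [← hK]; exact hΛ1) m H
      rw [← hK, hDc] at hw
      have h4 : (Part D (fun _ => 0) (m : ℤ) (m + H * Λ)).card ≤ (s.biUnion t).card := by
        apply Finset.card_le_card_of_injOn Int.toNat
        · intro y hy
          rw [mem_coe, mem_Part] at hy
          obtain ⟨⟨h5, h6⟩, d, hd, h7⟩ := hy
          rw [hDd, mem_image] at hd
          obtain ⟨i, hi, rfl⟩ := hd
          rw [mem_coe, mem_biUnion]
          refine ⟨i, hi, ?_⟩
          rw [ht, mem_filter, mem_Ioc]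
          refine ⟨⟨by omega, ?_⟩, ?_⟩
          · have h8 : (y.toNat : ℤ) = y := Int.toNat_of_nonneg (by omega)
            have h9 : (y.toNat : ℤ) ≤ ((m + H * Λ : ℕ) : ℤ) := by
              rw [h8]; push_cast; exact h6
            exact_mod_cast h9
          · rw [sub_zero] at h7
            have h8 : (y.toNat : ℤ) = y := Int.toNat_of_nonneg (by omega)
            rw [← h8] at h7
            exact_mod_cast h7
        · intro y hy z hz hyz
          rw [mem_coe, mem_Part] at hy hz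
          have h5 := hy.1.1
          have h6 := hz.1.1
          omega
      have h10 : ((Part D (fun _ => 0) (m : ℤ) (m + H * Λ)).card : ℝ) ≤
          ((s.biUnion t).card : ℝ) := by exact_mod_cast h4
      have h11 : (s.card : ℝ) ≤ ((s.biUnion t).card : ℝ) := by
        have h12 : K * s.card ≤ H * s.card :=
          mul_le_mul_of_nonneg_right hH1 (Nat.cast_nonneg _)
        have h13 : K * s.card ≤ K * ((s.biUnion t).card : ℝ) :=
          h12.trans (hw.trans (mul_le_mul_of_nonneg_left h10 (by linarith)))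
        exact le_of_mul_le_mul_left h13 (by linarith)
      exact_mod_cast h11
    obtain ⟨f, hf1, hf2⟩ := (Finset.all_card_le_biUnion_card_iff_exists_injective t).1 hall
    refine ⟨f, hf1, fun i => ?_⟩
    have h4 := hf2 i
    rw [ht, mem_filter, mem_Ioc] at h4
    exact ⟨h4.1.1, by omega, h4.2⟩
  · push_cast
    have h4 : (H : ℝ) * Λ ≤ 2 * K * (3 * (K * n)) :=
      mul_le_mul hH2 hΛ2 (Nat.cast_nonneg _) (by positivity)
    have h5 : 1 ≤ K * K * n := by nlinarith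
    have h6 : K * K * n = (n : ℝ) ^ (1 + 2 * δ) := by
      rw [hK, ← Real.rpow_add hn0, ← Real.rpow_add_one hn0.ne']
      congr 1
      ring
    calc (H : ℝ) * Λ + 1 ≤ 7 * (K * K * n) := by nlinarith
      _ ≤ (n : ℝ) ^ δ * (n : ℝ) ^ (1 + 2 * δ) := by
          rw [h6]
          exact mul_le_mul_of_nonneg_right h3 (by positivity)
      _ = (n : ℝ) ^ (δ + (1 + 2 * δ)) := by rw [← Real.rpow_add hn0]
      _ ≤ _ := Real.rpow_le_rpow_of_exponent_le hn (by linarith)

end Pool.Agent.H605.Web
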