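import Mathlib
import Pool.Prelude.Def_F_c8429539
import Pool.Graph.R_seed8.H170R2.PC.Defs

/-!
# Definitions for the equivalence of several Kakeya-type questions
-/

set_option autoImplicit false

open N047c7463 Filter Asymptotics

namespace Pool.Agent.H605.Web

/-- `E` contains, for the difference `d`, a progression `a, a + d, …, a + j d`, `j ≤ K`. -/
def HasAP (E : Finset ℤ) (K : ℝ) (d : ℕ) : Prop :=
  ∃ a : ℤ, ∀ j : ℕ, (j : ℝ) ≤ K → a + j * d ∈ E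

/-- The one-dimensional discrete Kakeya statement of Bourgain: progressions of power length for all
the common differences `1, …, N`. -/
def DiscreteKakeya : Prop :=
  ∀ ε : ℝ, 0 < ε → ∃ N₀ : ℕ, ∀ N : ℕ, N₀ ≤ N → ∀ E : Finset ℤ,
    (∀ d : ℕ, 1 ≤ d → d ≤ N → HasAP E ((N : ℝ) ^ ε) d) → (N : ℝ) ^ (1 - ε) ≤ (E.card : ℝ)

/-- The same for arbitrary sets of common differences. -/
def DiscreteKakeyaSets : Prop :=
  ∀ ε : ℝ, 0 < ε → ∃ N₀ : ℕ, ∀ N : ℕ, N₀ ≤ N → ∀ D : Finset ℕ, (∀ d ∈ D, 1 ≤ d ∧ d ≤ N) →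
    ∀ E : Finset ℤ, (∀ d ∈ D, HasAP E ((N : ℝ) ^ ε) d) →
      (D.card : ℝ) ≤ (N : ℝ) ^ ε * (E.card : ℝ)

/-- Q1 of MP_98a628_nt, as in the frozen statement: `max_m f(n, m) ≤ n ^ (1 + o(1))`. -/
def ErdosMultiples : Prop :=
  ∃ error : ℕ → ℝ, error =o[atTop] (fun _ ↦ (1 : ℝ)) ∧ ∀ᶠ n in atTop, ∀ m, ∃ L,
    HasDivisibleDistinctTuple n m L ∧ (L : ℝ) ≤ Real.rpow n (1 + error n)

end Pool.Agent.H605.Web
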