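import Pool.Agent.H605.Web.Defs

/-!
# From `n ^ (1 + η)` for all `η > 0` to `n ^ (1 + o(1))`
-/

set_option autoImplicit false

open Filter N047c7463 Asymptotics Topology

namespace Pool.Agent.H605.Web

theorem erdos_of_eps (h : ∀ η : ℝ, 0 < η → ∀ᶠ n : ℕ in atTop, ∀ m : ℕ, ∃ L : ℕ,
    HasDivisibleDistinctTuple n m L ∧ (L : ℝ) ≤ (n : ℝ) ^ (1 + η)) : ErdosMultiples := by
  obtain ⟨S, hS⟩ : ∃ S : ℕ → Set ℝ, S = fun n => {η : ℝ | 0 < η ∧ ∀ m : ℕ, ∃ L : ℕ,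
    HasDivisibleDistinctTuple n m L ∧ (L : ℝ) ≤ (n : ℝ) ^ (1 + η)} := ⟨_, rfl⟩
  have hb : ∀ n, BddBelow (S n) := fun n => ⟨0, fun η hη => by
    rw [hS] at hη
    exact hη.1.le⟩
  have h0 : ∀ n, 0 ≤ sInf (S n) := fun n => Real.sInf_nonneg fun η hη => by
    rw [hS] at hη
    exact hη.1.le
  refine ⟨fun n => sInf (S n) + 1 / ((n : ℝ) + 1), ?_, ?_⟩
  · rw [isLittleO_one_iff, Metric.tendsto_atTop]
    intro c hc
    have h1 := h (c / 2) (by positivity)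
    have h2 : ∀ᶠ n : ℕ in atTop, 1 / ((n : ℝ) + 1) < c / 2 := by
      have := tendsto_one_div_add_atTop_nhds_zero_nat (𝕜 := ℝ)
      exact this.eventually (gt_mem_nhds (by positivity))
    obtain ⟨N, hN⟩ := eventually_atTop.1 (h1.and h2)
    refine ⟨N, fun n hn => ?_⟩
    obtain ⟨h3, h4⟩ := hN n hn
    have h5 : sInf (S n) ≤ c / 2 := csInf_le (hb n) (by
      rw [hS]
      exact ⟨by positivity, h3⟩)
    have h6 := h0 n
    have h7 : 0 ≤ 1 / ((n : ℝ) + 1) := by positivity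
    rw [Real.dist_eq, sub_zero, abs_of_nonneg (by linarith)]
    linarith
  · filter_upwards [h 1 one_pos, eventually_ge_atTop 1] with n h1 h2
    have hn : (1 : ℝ) ≤ n := by exact_mod_cast h2
    have hne : (S n).Nonempty := ⟨1, by rw [hS]; exact ⟨one_pos, h1⟩⟩
    have h3 : sInf (S n) < sInf (S n) + 1 / ((n : ℝ) + 1) := by
      have : 0 < 1 / ((n : ℝ) + 1) := by positivity
      linarith
    obtain ⟨η, hη1, hη2⟩ := exists_lt_of_csInf_lt hne h3
    rw [hS] at hη1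
    intro m
    obtain ⟨L, hL1, hL2⟩ := hη1.2 m
    refine ⟨L, hL1, hL2.trans ?_⟩
    rw [Real.rpow_eq_pow]
    exact Real.rpow_le_rpow_of_exponent_le hn (by linarith)

end Pool.Agent.H605.Web
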