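import Pool.Agent.H605.Web.Family

/-!
# Kakeya sets in `ℝ^n`
-/

set_option autoImplicit false

open Finset MeasureTheory Set Filter Topology
open scoped ENNReal

namespace Pool.Agent.H605.Web

open Pool.Agent.W46.KK

theorem kakeya_small {θ : ℝ} (h : DKsets θ) (hθ : θ ≤ 1) {d : ℕ} (hd : 1 ≤ d) {ε : ℝ}
    (hε : 0 < ε) : ∃ κ r₀ : ℝ, 0 < κ ∧ 0 < r₀ ∧ ∀ K : Set (EuclideanSpace ℝ (Fin (d + 1))),
      (∀ e : EuclideanSpace ℝ (Fin (d + 1)), ‖e‖ = 1 → ∃ a : EuclideanSpace ℝ (Fin (d + 1)),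
        ∀ t ∈ Set.Icc (0 : ℝ) 1, a + t • e ∈ K) →
      ∀ r : ℝ, 0 < r → r ≤ r₀ →
        ENNReal.ofReal (κ * r ^ ((d : ℝ) * (1 - θ) + ε)) ≤ volume (Metric.thickening r K) := by
  have hd1 : (0 : ℝ) < (d : ℝ) + 1 := by positivity
  obtain ⟨κ, δ₀, hκ, hδ₀, hkak⟩ := family_volume h hθ hd (lam := 1 / (d + 1)) (by positivity)
    (by rw [div_le_one hd1]; linarith) hε
  refine ⟨κ * (1 / ((d : ℝ) + 1)) ^ ((d : ℝ) * (1 - θ) + ε), δ₀ * (d + 1), by positivity,
    by positivity, ?_⟩
  intro K hK r hr hr₀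
  set δ : ℝ := r / (d + 1) with hδ
  have hδpos : 0 < δ := by positivity
  have hδδ₀ : δ ≤ δ₀ := by rw [hδ, div_le_iff₀ hd1]; exact hr₀
  -- the vector `(1, v)`
  set w : (Fin d → ℝ) → EuclideanSpace ℝ (Fin (d + 1)) := fun v => WithLp.toLp 2 (Fin.cons 1 v)
    with hw
  have hw0 : ∀ v, (w v) 0 = 1 := fun v => rfl
  have hws : ∀ v i, (w v) (Fin.succ i) = v i := fun v i => rfl
  have hnorm1 : ∀ v, 1 ≤ ‖w v‖ := by
    intro v
    have := PiLp.norm_apply_le (w v) 0
    rw [hw0] at this
    simpa using this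
  have hex : ∀ v : Fin d → ℝ, ∃ a : EuclideanSpace ℝ (Fin (d + 1)),
      ∀ t ∈ Set.Icc (0 : ℝ) 1, a + t • (‖w v‖⁻¹ • w v) ∈ K := by
    intro v
    apply hK
    rw [norm_smul, norm_inv, norm_norm]
    exact inv_mul_cancel₀ (by have := hnorm1 v; positivity)
  choose a ha using hex
  have key := hkak δ hδpos hδδ₀ (fun v i => a v (Fin.succ i) - a v 0 * v i) (fun v => a v 0)
    ((eqv d).symm ⁻¹' Metric.thickening r K)
    ((eqv d).symm.measurable Metric.isOpen_thickening.measurableSet) (by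
      intro v hv t ht y hy
      have hnle : ‖w v‖ ≤ d + 1 := by
        rw [EuclideanSpace.norm_eq]
        apply Real.sqrt_le_iff.mpr
        refine ⟨by positivity, ?_⟩
        rw [Fin.sum_univ_succ]
        have h1 : ∑ i : Fin d, ‖(w v) (Fin.succ i)‖ ^ 2 ≤ ∑ _i : Fin d, (1 : ℝ) := by
          refine Finset.sum_le_sum fun i _ => ?_
          rw [hws, Real.norm_eq_abs, sq_abs]
          have := hv i
          nlinarith
        rw [Finset.sum_const, Finset.card_univ, Fintype.card_fin, nsmul_eq_mul, mul_one] at h1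
        rw [hw0]
        have hdnn : (0 : ℝ) ≤ d := Nat.cast_nonneg d
        simp only [norm_one, one_pow]
        nlinarith
      rw [Set.mem_preimage, eqv_symm, Metric.mem_thickening_iff]
      refine ⟨a v + (t - a v 0) • w v, ?_, ?_⟩
      · have h2 := ha v ((t - a v 0) * ‖w v‖) ⟨by
            have := ht.1
            have := hnorm1 v
            exact mul_nonneg (by linarith) (by linarith), by
            have h3 : t - a v 0 ≤ 1 / (d + 1) := by linarith [ht.2]
            calc (t - a v 0) * ‖w v‖ ≤ 1 / (d + 1) * (d + 1) := by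
                  apply mul_le_mul h3 hnle (norm_nonneg _) (by positivity)
              _ = 1 := by field_simp⟩
        rw [smul_smul, mul_assoc, mul_inv_cancel₀ (by have := hnorm1 v; positivity), mul_one] at h2
        exact h2
      · rw [EuclideanSpace.dist_eq, Fin.sum_univ_succ]
        have e0 : (a v + (t - a v 0) • w v) 0 = t := by
          simp only [PiLp.add_apply, PiLp.smul_apply, smul_eq_mul, hw0]
          ring
        have es : ∀ i : Fin d, (a v + (t - a v 0) • w v) (Fin.succ i)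
            = (a v (Fin.succ i) - a v 0 * v i) + t * v i := by
          intro i
          simp only [PiLp.add_apply, PiLp.smul_apply, smul_eq_mul, hws]
          ring
        rw [e0]
        simp only [es]
        have hsum : ∑ i : Fin d, dist (y i) (a v (Fin.succ i) - a v 0 * v i + t * v i) ^ 2
            ≤ d * δ ^ 2 := by
          calc _ ≤ ∑ _i : Fin d, δ ^ 2 := by
                refine Finset.sum_le_sum fun i _ => ?_
                have := hy i
                rw [Real.dist_eq]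
                exact pow_le_pow_left₀ (abs_nonneg _) this 2
            _ = d * δ ^ 2 := by
              rw [Finset.sum_const, Finset.card_univ, Fintype.card_fin, nsmul_eq_mul]
        have hlt : (d : ℝ) * δ ^ 2 < r ^ 2 := by
          rw [hδ, div_pow, ← mul_div_assoc, div_lt_iff₀ (by positivity)]
          have hdnn : (0 : ℝ) ≤ d := Nat.cast_nonneg d
          have hr2 : 0 < r ^ 2 := by positivity
          nlinarith [mul_pos hr2 (by nlinarith : (0 : ℝ) < ((d : ℝ) + 1) ^ 2 - d)]
        calc _ ≤ √((d : ℝ) * δ ^ 2) := by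
              apply Real.sqrt_le_sqrt
              simp only [Fin.cons_zero, Fin.cons_succ, dist_self]
              linarith
          _ < r := by
              rw [Real.sqrt_lt' hr]
              exact hlt)
  rw [(eqv_mp d).symm.measure_preimage_equiv] at key
  refine le_trans (le_of_eq ?_) key
  congr 1
  rw [hδ, div_eq_mul_one_div r, Real.mul_rpow hr.le (by positivity)]
  ring

theorem kakeya_all {θ : ℝ} (h : DKsets θ) (hθ : θ ≤ 1) {d : ℕ} (hd : 1 ≤ d) {ε : ℝ}
    (hε : 0 < ε) : ∃ κ : ℝ, 0 < κ ∧ ∀ K : Set (EuclideanSpace ℝ (Fin (d + 1))),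
      (∀ e : EuclideanSpace ℝ (Fin (d + 1)), ‖e‖ = 1 → ∃ a : EuclideanSpace ℝ (Fin (d + 1)),
        ∀ t ∈ Set.Icc (0 : ℝ) 1, a + t • e ∈ K) →
      ∀ r : ℝ, 0 < r → r ≤ 1 →
        ENNReal.ofReal (κ * r ^ ((d : ℝ) * (1 - θ) + ε)) ≤ volume (Metric.thickening r K) := by
  obtain ⟨κ, r₀, hκ, hr₀, hv⟩ := kakeya_small h hθ hd hε
  obtain ⟨e, he⟩ : ∃ e : ℝ, e = (d : ℝ) * (1 - θ) + ε := ⟨_, rfl⟩
  have he0 : 0 ≤ e := by
    rw [he]
    have : 0 ≤ (d : ℝ) * (1 - θ) := mul_nonneg (Nat.cast_nonneg _) (by linarith)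
    linarith
  rw [← he] at hv ⊢
  refine ⟨κ * min 1 (r₀ ^ e), by positivity, fun K hK r hr hr1 => ?_⟩
  rcases le_or_gt r r₀ with h1 | h1
  · refine le_trans (ENNReal.ofReal_le_ofReal ?_) (hv K hK r hr h1)
    apply mul_le_mul_of_nonneg_right _ (by positivity)
    calc κ * min 1 (r₀ ^ e) ≤ κ * 1 := mul_le_mul_of_nonneg_left (min_le_left _ _) hκ.le
      _ = κ := mul_one κ
  · refine le_trans ?_ (measure_mono (Metric.thickening_mono h1.le K))
    refine le_trans (ENNReal.ofReal_le_ofReal ?_) (hv K hK r₀ hr₀ le_rfl)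
    calc κ * min 1 (r₀ ^ e) * r ^ e ≤ κ * r₀ ^ e * 1 := by
          apply mul_le_mul _ (Real.rpow_le_one hr.le hr1 he0) (by positivity) (by positivity)
          exact mul_le_mul_of_nonneg_left (min_le_right _ _) hκ.le
      _ = _ := mul_one _

/-- from volumes to the lower Minkowski dimension -/
theorem dim_of_volume {n : ℕ} {s : ℝ} (K : Set (EuclideanSpace ℝ (Fin n))) (hK : IsCompact K)
    (hvol : ∀ ε : ℝ, 0 < ε → ∃ κ : ℝ, 0 < κ ∧ ∀ r : ℝ, 0 < r → r ≤ 1 →
      ENNReal.ofReal (κ * r ^ (s + ε)) ≤ volume (Metric.thickening r K)) :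
    (n : ℝ) - s ≤ n - limsup (fun δ : ℝ =>
      Real.log (volume (Metric.thickening δ K)).toReal / Real.log δ) (𝓝[>] 0) := by
  have hfin : ∀ δ : ℝ, volume (Metric.thickening δ K) ≠ ⊤ := fun δ =>
    (hK.isBounded.thickening (δ := δ)).measure_lt_top.ne
  suffices hsup : limsup (fun δ : ℝ =>
      Real.log (volume (Metric.thickening δ K)).toReal / Real.log δ) (𝓝[>] 0) ≤ s by linarith
  have hlog : Tendsto Real.log (𝓝[>] 0) atBot := Real.tendsto_log_nhdsGT_zero
  have hsmall : ∀ᶠ δ : ℝ in 𝓝[>] (0 : ℝ), 0 < δ ∧ δ < 1 := by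
    have : Set.Ioo (0 : ℝ) 1 ∈ 𝓝[>] (0 : ℝ) := Ioo_mem_nhdsGT one_pos
    exact this
  refine le_of_forall_pos_le_add fun ε hε => ?_
  obtain ⟨κ, hκ, hv⟩ := hvol (ε / 2) (by positivity)
  have hreal : ∀ δ : ℝ, 0 < δ → δ < 1 →
      κ * δ ^ (s + ε / 2) ≤ (volume (Metric.thickening δ K)).toReal := by
    intro δ hδ hδ1
    exact (ENNReal.ofReal_le_iff_le_toReal (hfin δ)).mp (hv δ hδ hδ1.le)
  refine limsup_le_of_le ?_ ?_
  · -- bounded below
    set M : ℝ := (volume (Metric.thickening 1 K)).toReal with hM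
    refine IsCoboundedUnder.of_frequently_ge (a := -1) (Eventually.frequently ?_)
    have h1 : ∀ᶠ δ : ℝ in 𝓝[>] (0 : ℝ), Real.log δ < -(|Real.log M| + 1) :=
      hlog.eventually (eventually_lt_atBot _)
    filter_upwards [h1, hsmall] with δ h1 h2
    have hneg : Real.log δ < 0 := by have := abs_nonneg (Real.log M); linarith
    rw [le_div_iff_of_neg hneg]
    have h3 : (volume (Metric.thickening δ K)).toReal ≤ M := by
      rw [hM]
      exact ENNReal.toReal_mono (hfin 1) (measure_mono (Metric.thickening_mono h2.2.le K))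
    have h4 : 0 < (volume (Metric.thickening δ K)).toReal := by
      refine lt_of_lt_of_le ?_ (hreal δ h2.1 h2.2)
      have := h2.1
      positivity
    have h5 := Real.log_le_log h4 h3
    have := le_abs_self (Real.log M)
    linarith
  · have h1 : ∀ᶠ δ : ℝ in 𝓝[>] (0 : ℝ), Real.log δ < -(|Real.log κ| / (ε / 2) + 1) :=
      hlog.eventually (eventually_lt_atBot _)
    filter_upwards [h1, hsmall] with δ h1 h2
    have habs : 0 ≤ |Real.log κ| / (ε / 2) := by positivity
    have hneg : Real.log δ < 0 := by linarith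
    rw [div_le_iff_of_neg hneg]
    have hpos : 0 < κ * δ ^ (s + ε / 2) := by
      have := h2.1
      positivity
    have h5 := Real.log_le_log hpos (hreal δ h2.1 h2.2)
    rw [Real.log_mul hκ.ne' (by have := h2.1; positivity), Real.log_rpow h2.1] at h5
    have h6 : (ε / 2) * Real.log δ ≤ Real.log κ := by
      have h7 : |Real.log κ| / (ε / 2) < -Real.log δ := by linarith
      rw [div_lt_iff₀ (by positivity)] at h7
      have := neg_abs_le (Real.log κ)
      nlinarith
    nlinarith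

end Pool.Agent.H605.Web
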