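import Pool.Agent.H605.Web.Slab

/-!
# Families of segments in `ℝ × ℝ^d`
-/

set_option autoImplicit false

open Finset MeasureTheory
open scoped ENNReal

namespace Pool.Agent.H605.Web

open Pool.Agent.W46.KK

/-- all slabs, for fixed parameters -/
theorem family_finite {d M k N : ℕ} {K A δ μ : ℝ} (hM : 1 ≤ M) (hk : K < k)
    (hN : (M + 1) ^ d ≤ N) (hδ : 0 < δ) (hA : 0 < A) (hμ0 : 0 < μ)
    (hKP : ∀ D : Finset ℕ, (∀ n ∈ D, 1 ≤ n ∧ n ≤ N) → ∀ E : Finset ℤ,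
      (∀ n ∈ D, HasAP E K n) → (D.card : ℝ) ≤ A * E.card)
    (hμ : k * (M * δ) ≤ μ)
    (p : (Fin d → ℝ) → Fin d → ℝ) (b : (Fin d → ℝ) → ℝ)
    (T : Set (ℝ × (Fin d → ℝ))) (hT : MeasurableSet T)
    (hfam : ∀ v : Fin d → ℝ, (∀ i, 0 ≤ v i ∧ v i ≤ 1) → ∀ t ∈ Set.Icc (b v) (b v + 2 * μ),
      ∀ y : Fin d → ℝ, (∀ i, |y i - (p v i + t * v i)| ≤ δ) → (t, y) ∈ T) :
    ENNReal.ofReal (M * δ * (δ ^ d * (((M + 1) ^ d - 1 : ℕ) / A))) ≤ volume T := by
  classical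
  have hMr : (0 : ℝ) < M := by exact_mod_cast hM
  obtain ⟨vec, hvec⟩ : ∃ vec : (Fin d → Fin (M + 1)) → Fin d → ℝ,
    vec = fun u i => ((u i : ℕ) / M : ℝ) := ⟨_, rfl⟩
  have hvec01 : ∀ u i, 0 ≤ vec u i ∧ vec u i ≤ 1 := by
    intro u i
    rw [hvec]
    refine ⟨by positivity, ?_⟩
    simp only
    rw [div_le_one hMr]
    have := (u i).isLt
    exact_mod_cast Nat.lt_succ_iff.1 this
  obtain ⟨V, hV⟩ : ∃ V : Finset (Fin d → Fin (M + 1)), V = univ.erase 0 := ⟨_, rfl⟩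
  obtain ⟨j, hj⟩ : ∃ j : (Fin d → Fin (M + 1)) → ℤ, j = fun u => ⌈b (vec u) / μ⌉ := ⟨_, rfl⟩
  obtain ⟨J, hJ⟩ : ∃ J, J = V.image j := ⟨_, rfl⟩
  have hone : ∀ m : ℤ, ENNReal.ofReal (M * δ * (δ ^ d * ((V.filter fun v => j v = m).card / A))) ≤
      volume (T ∩ (Set.Ico (m * μ) (m * μ + μ) ×ˢ Set.univ)) := by
    intro m
    refine slab_volume hM hk hN hδ hA hKP (V.filter fun v => j v = m) (fun u hu => ?_)
      (fun u => p (vec u)) (m * μ) μ hμ T hT ?_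
    · rw [mem_filter, hV, mem_erase] at hu
      exact hu.1.1
    · intro v hv t ht y hy
      rw [Finset.mem_filter] at hv
      refine hfam (vec v) (hvec01 v) t ?_ y (by rw [hvec] at hy ⊢; exact hy)
      have h1 : b (vec v) / μ ≤ m := by rw [← hv.2, hj]; exact Int.le_ceil _
      have h2 : (m : ℝ) < b (vec v) / μ + 1 := by rw [← hv.2, hj]; exact Int.ceil_lt_add_one _
      rw [div_le_iff₀ hμ0] at h1
      have h3 : (m : ℝ) * μ < b (vec v) + μ := by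
        have := mul_lt_mul_of_pos_right h2 hμ0
        rwa [add_mul, one_mul, div_mul_cancel₀ _ hμ0.ne'] at this
      constructor
      · linarith [ht.1]
      · linarith [ht.2]
  have hdisj : (J : Set ℤ).PairwiseDisjoint fun m : ℤ =>
      T ∩ (Set.Ico ((m : ℝ) * μ) (m * μ + μ) ×ˢ (Set.univ : Set (Fin d → ℝ))) := by
    intro m _ m' _ hmm
    rw [Function.onFun, Set.disjoint_left]
    rintro ⟨t, y⟩ ⟨_, ht, _⟩ ⟨_, ht', _⟩
    apply hmm
    simp only at ht ht'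
    have a1 : (m : ℝ) < m' + 1 := by
      by_contra hcon
      push Not at hcon
      have := mul_le_mul_of_nonneg_right hcon hμ0.le
      linarith [ht.1, ht'.2]
    have a2 : (m' : ℝ) < m + 1 := by
      by_contra hcon
      push Not at hcon
      have := mul_le_mul_of_nonneg_right hcon hμ0.le
      linarith [ht'.1, ht.2]
    have b1 : m < m' + 1 := by exact_mod_cast a1
    have b2 : m' < m + 1 := by exact_mod_cast a2
    omega
  have hsum : ∑ m ∈ J, volume (T ∩ (Set.Ico ((m : ℝ) * μ) (m * μ + μ) ×ˢ Set.univ)) ≤ volume T := by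
    rw [← measure_biUnion_finset hdisj fun m _ =>
      hT.inter (measurableSet_Ico.prod MeasurableSet.univ)]
    exact measure_mono (Set.iUnion₂_subset fun m _ => Set.inter_subset_left)
  refine le_trans ?_ hsum
  refine le_trans ?_ (Finset.sum_le_sum fun m _ => hone m)
  rw [← ENNReal.ofReal_sum_of_nonneg fun m _ => by positivity]
  apply ENNReal.ofReal_le_ofReal
  rw [← Finset.mul_sum, ← Finset.mul_sum, ← Finset.sum_div]
  have hcardsum : ∑ m ∈ J, ((V.filter fun v => j v = m).card : ℝ) = (V.card : ℝ) := by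
    rw [hJ]
    have := Finset.card_eq_sum_card_image j V
    rw [this]
    push_cast
    rfl
  rw [hcardsum, hV, card_erase_of_mem (mem_univ _), card_univ, Fintype.card_fun, Fintype.card_fin,
    Fintype.card_fin]

/-- Families of segments: the volume of the `δ`-neighbourhood. -/
theorem family_volume {θ : ℝ} (h : DKsets θ) (hθ : θ ≤ 1) {d : ℕ} (hd : 1 ≤ d) {lam : ℝ}
    (hlam : 0 < lam) (hlam1 : lam ≤ 1) {ε : ℝ} (hε : 0 < ε) :
    ∃ κ δ₀ : ℝ, 0 < κ ∧ 0 < δ₀ ∧ ∀ δ : ℝ, 0 < δ → δ ≤ δ₀ →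
      ∀ (p : (Fin d → ℝ) → Fin d → ℝ) (b : (Fin d → ℝ) → ℝ)
      (T : Set (ℝ × (Fin d → ℝ))), MeasurableSet T →
      (∀ v : Fin d → ℝ, (∀ i, 0 ≤ v i ∧ v i ≤ 1) → ∀ t ∈ Set.Icc (b v) (b v + lam),
        ∀ y : Fin d → ℝ, (∀ i, |y i - (p v i + t * v i)| ≤ δ) → (t, y) ∈ T) →
      ENNReal.ofReal (κ * δ ^ ((d : ℝ) * (1 - θ) + ε)) ≤ volume T := by
  have hdr : (1 : ℝ) ≤ d := by exact_mod_cast hd
  obtain ⟨ε₁, hε₁⟩ : ∃ ε₁, ε₁ = min ε 1 / (2 * d * (d + 2)) := ⟨_, rfl⟩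
  have hmin : 0 < min ε 1 := lt_min hε one_pos
  have hε₁0 : 0 < ε₁ := by rw [hε₁]; positivity
  have hε₁1 : d * (d + 2) * ε₁ ≤ ε := by
    rw [hε₁]
    have e : (d : ℝ) * (d + 2) * (min ε 1 / (2 * d * (d + 2))) = min ε 1 / 2 := by field_simp
    rw [e]
    have := min_le_left ε 1
    linarith
  have hε₁2 : d * ε₁ ≤ 1 / 2 := by
    rw [hε₁]
    have e : (d : ℝ) * (min ε 1 / (2 * d * (d + 2))) = min ε 1 / (2 * (d + 2)) := by field_simp
    rw [e, div_le_div_iff₀ (by positivity) (by norm_num)]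
    have := min_le_right ε 1
    nlinarith
  obtain ⟨N₀, hN₀⟩ := h ε₁ hε₁0
  obtain ⟨μ, hμ⟩ : ∃ μ, μ = lam / 2 := ⟨_, rfl⟩
  have hμ0 : 0 < μ := by rw [hμ]; positivity
  have hμ1 : 2 * μ ≤ 1 := by rw [hμ]; linarith
  obtain ⟨N₁, hN₁⟩ : ∃ N₁ : ℝ, N₁ = N₀ + 1 := ⟨_, rfl⟩
  have hN₁0 : 1 ≤ N₁ := by rw [hN₁]; have : (0 : ℝ) ≤ N₀ := Nat.cast_nonneg _; linarith
  refine ⟨(μ / 4) ^ (d + 1), min 1 ((μ / (2 * N₁)) ^ 2), by positivity, by positivity, ?_⟩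
  intro δ hδ hδ₀ p b T hT hfam
  have hδ1 : δ ≤ 1 := hδ₀.trans (min_le_left _ _)
  have hδ2 : δ ^ ((1 : ℝ) / 2) ≤ μ / (2 * N₁) := by
    have h1 : δ ≤ (μ / (2 * N₁)) ^ 2 := hδ₀.trans (min_le_right _ _)
    rw [← Real.sqrt_eq_rpow]
    exact Real.sqrt_le_iff.2 ⟨by positivity, h1⟩
  -- `k`
  obtain ⟨X, hX⟩ : ∃ X : ℝ, X = δ ^ (-(d * ε₁)) := ⟨_, rfl⟩
  have hX1 : 1 ≤ X := by
    rw [hX]
    exact Real.one_le_rpow_of_pos_of_le_one_of_nonpos hδ hδ1 (by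
      have : 0 ≤ (d : ℝ) * ε₁ := by positivity
      linarith)
  obtain ⟨k, hk⟩ : ∃ k, k = ⌊X⌋₊ + 1 := ⟨_, rfl⟩
  have hk1 : X < k := by rw [hk]; push_cast; exact Nat.lt_floor_add_one _
  have hk2 : (k : ℝ) ≤ 2 * X := by
    rw [hk]; push_cast
    have := Nat.floor_le (show 0 ≤ X by linarith)
    linarith
  have hk0 : (0 : ℝ) < k := by linarith
  have hkδ : (k : ℝ) * δ ≤ μ / N₁ := by
    calc (k : ℝ) * δ ≤ 2 * X * δ := mul_le_mul_of_nonneg_right hk2 hδ.le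
      _ = 2 * δ ^ (1 - d * ε₁) := by
          rw [hX, mul_assoc, sub_eq_neg_add, Real.rpow_add hδ, Real.rpow_one]
      _ ≤ 2 * δ ^ ((1 : ℝ) / 2) := by
          apply mul_le_mul_of_nonneg_left _ (by norm_num)
          exact Real.rpow_le_rpow_of_exponent_ge hδ hδ1 (by linarith)
      _ ≤ 2 * (μ / (2 * N₁)) := mul_le_mul_of_nonneg_left hδ2 (by norm_num)
      _ = _ := by field_simp
  -- `M`
  obtain ⟨Y, hY⟩ : ∃ Y : ℝ, Y = μ / (k * δ) := ⟨_, rfl⟩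
  have hY1 : N₁ ≤ Y := by
    rw [hY, le_div_iff₀ (by positivity)]
    rw [le_div_iff₀ (by linarith)] at hkδ
    linarith
  obtain ⟨M, hM⟩ : ∃ M, M = ⌊Y⌋₊ := ⟨_, rfl⟩
  have hM1 : (M : ℝ) ≤ Y := by rw [hM]; exact Nat.floor_le (by linarith)
  have hM2 : Y < M + 1 := by rw [hM]; exact Nat.lt_floor_add_one _
  have hM3 : 1 ≤ M := by
    rw [hM]
    exact Nat.le_floor (by push_cast; linarith)
  have hM3r : (1 : ℝ) ≤ M := by exact_mod_cast hM3
  have hkM : (k : ℝ) * (M * δ) ≤ μ := by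
    have h1 : (M : ℝ) * (k * δ) ≤ Y * (k * δ) := mul_le_mul_of_nonneg_right hM1 (by positivity)
    have h2 : Y * (k * δ) = μ := by rw [hY]; field_simp
    linarith
  have hMδ : μ / 4 * δ ^ (d * ε₁) ≤ M * δ := by
    have h1 : Y ≤ 2 * M := by linarith
    have h2 : Y * δ = μ / k := by rw [hY]; field_simp
    have h3 : μ / (2 * X) ≤ μ / k := div_le_div_of_nonneg_left hμ0.le hk0 hk2
    have h4 : μ / (2 * X) = μ / 2 * δ ^ (d * ε₁) := by
      rw [hX, Real.rpow_neg hδ.le]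
      field_simp
    have h5 : Y * δ ≤ 2 * M * δ := mul_le_mul_of_nonneg_right h1 hδ.le
    linarith
  -- `N`
  obtain ⟨N, hN⟩ : ∃ N, N = (M + 1) ^ d := ⟨_, rfl⟩
  have hM1N : M + 1 ≤ N := by
    rw [hN]
    calc M + 1 = (M + 1) ^ 1 := (pow_one _).symm
      _ ≤ (M + 1) ^ d := Nat.pow_le_pow_right (by omega) hd
  have hNN₀ : N₀ ≤ N := by
    have h1 : (N₀ : ℝ) < M + 1 := by rw [hN₁] at hY1; linarith
    have h2 : N₀ < M + 1 := by exact_mod_cast h1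
    omega
  have hNr : (N : ℝ) ≤ δ ^ (-(d : ℝ)) := by
    have h1 : (M : ℝ) + 1 ≤ δ⁻¹ := by
      have h2 : (M : ℝ) + 1 ≤ 2 * Y := by linarith
      have h3 : 2 * Y * δ ≤ 1 := by
        have h4 : 2 * Y * δ = 2 * μ / k := by rw [hY]; field_simp
        rw [h4, div_le_one hk0]
        linarith
      rw [← one_div, le_div_iff₀ hδ]
      have := mul_le_mul_of_nonneg_right h2 hδ.le
      linarith
    rw [hN, Real.rpow_neg hδ.le, Real.rpow_natCast, ← inv_pow]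
    push_cast
    exact pow_le_pow_left₀ (by positivity) h1 d
  have hNpos : (1 : ℝ) ≤ N := by
    have : (M : ℝ) + 1 ≤ N := by exact_mod_cast hM1N
    linarith
  have hK : (N : ℝ) ^ ε₁ < k := by
    refine lt_of_le_of_lt ?_ hk1
    calc (N : ℝ) ^ ε₁ ≤ (δ ^ (-(d : ℝ))) ^ ε₁ := Real.rpow_le_rpow (by linarith) hNr hε₁0.le
      _ = X := by rw [← Real.rpow_mul hδ.le, hX]; congr 1; ring
  obtain ⟨A, hA⟩ : ∃ A : ℝ, A = (N : ℝ) ^ (1 - θ + ε₁) := ⟨_, rfl⟩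
  have hA0 : 0 < A := by rw [hA]; positivity
  have hA1 : A ≤ δ ^ (-(d * (1 - θ + ε₁))) := by
    rw [hA]
    calc (N : ℝ) ^ (1 - θ + ε₁) ≤ (δ ^ (-(d : ℝ))) ^ (1 - θ + ε₁) :=
          Real.rpow_le_rpow (by linarith) hNr (by linarith)
      _ = _ := by rw [← Real.rpow_mul hδ.le]; congr 1; ring
  have key := family_finite hM3 hK (le_of_eq hN.symm) hδ hA0 hμ0
    (fun D hD E hE => by rw [hA]; exact hN₀ N hNN₀ D hD E hE) hkM p b T hT
    (by
      have e : 2 * μ = lam := by rw [hμ]; ring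
      rw [e]
      exact hfam)
  refine le_trans (ENNReal.ofReal_le_ofReal ?_) key
  have hMd : (M : ℝ) ^ d ≤ (((M + 1) ^ d - 1 : ℕ) : ℝ) := by
    have h1 : M ^ d + 1 ≤ (M + 1) ^ d := by
      have := Nat.pow_lt_pow_left (show M < M + 1 by omega) (show d ≠ 0 by omega)
      omega
    have h2 : M ^ d ≤ (M + 1) ^ d - 1 := by omega
    exact_mod_cast h2
  calc (μ / 4) ^ (d + 1) * δ ^ ((d : ℝ) * (1 - θ) + ε)
      ≤ (μ / 4) ^ (d + 1) * δ ^ ((d + 1) * (d * ε₁) + d * (1 - θ + ε₁)) := by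
        apply mul_le_mul_of_nonneg_left _ (by positivity)
        apply Real.rpow_le_rpow_of_exponent_ge hδ hδ1
        nlinarith
    _ = (μ / 4 * δ ^ (d * ε₁)) ^ (d + 1) * δ ^ (d * (1 - θ + ε₁)) := by
        rw [mul_pow, Real.rpow_add hδ, ← Real.rpow_natCast (δ ^ (d * ε₁)), ← Real.rpow_mul hδ.le]
        push_cast
        ring_nf
    _ ≤ (M * δ) ^ (d + 1) * (1 / A) := by
        apply mul_le_mul _ _ (by positivity) (by positivity)
        · exact pow_le_pow_left₀ (by positivity) hMδ _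
        · rw [le_div_iff₀ hA0]
          calc δ ^ (d * (1 - θ + ε₁)) * A ≤ δ ^ (d * (1 - θ + ε₁)) * δ ^ (-(d * (1 - θ + ε₁))) :=
                mul_le_mul_of_nonneg_left hA1 (by positivity)
            _ = 1 := by rw [← Real.rpow_add hδ]; simp
    _ = M * δ * (δ ^ d * ((M : ℝ) ^ d / A)) := by
        rw [pow_succ, mul_pow]; ring
    _ ≤ _ := by
        apply mul_le_mul_of_nonneg_left _ (by positivity)
        apply mul_le_mul_of_nonneg_left _ (by positivity)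
        exact div_le_div_of_nonneg_right hMd hA0.le

end Pool.Agent.H605.Web
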