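import Pool.Agent.H605.Web.Translates

/-!
# `DiscreteKakeya ↔ DiscreteKakeyaSets`
-/

set_option autoImplicit false

open Finset Filter

namespace Pool.Agent.H605.Web

theorem HasAP.mono {E : Finset ℤ} {K K' : ℝ} {d : ℕ} (h : HasAP E K d) (hK : K' ≤ K) :
    HasAP E K' d := by
  obtain ⟨a, ha⟩ := h
  exact ⟨a, fun j hj => ha j (hj.trans hK)⟩

/-- eventually `C (log N + 1) ≤ N ^ δ` -/
theorem ev_log (C : ℝ) {δ : ℝ} (hδ : 0 < δ) :
    ∀ᶠ N : ℕ in atTop, C * (Real.log N + 1) ≤ (N : ℝ) ^ δ := by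
  have h1 := (isLittleO_log_rpow_atTop hδ).bound (show (0 : ℝ) < 1 / (2 * (|C| + 1)) by positivity)
  have h2 : ∀ᶠ x : ℝ in atTop, 2 * (|C| + 1) ≤ x ^ δ :=
    (tendsto_rpow_atTop hδ).eventually_ge_atTop _
  filter_upwards [tendsto_natCast_atTop_atTop.eventually h1,
    tendsto_natCast_atTop_atTop.eventually h2, eventually_ge_atTop 1] with N h3 h4 hN
  have hN' : (1 : ℝ) ≤ N := by exact_mod_cast hN
  have hl : 0 ≤ Real.log N := Real.log_nonneg hN'
  rw [Real.norm_eq_abs, Real.norm_eq_abs, abs_of_nonneg hl,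
    abs_of_nonneg (Real.rpow_nonneg (Nat.cast_nonneg N) δ)] at h3
  have hC : C ≤ |C| := le_abs_self C
  have hC0 : 0 ≤ |C| := abs_nonneg C
  have h5 : 2 * (|C| + 1) * Real.log N ≤ (N : ℝ) ^ δ := by
    calc 2 * (|C| + 1) * Real.log N ≤ 2 * (|C| + 1) * (1 / (2 * (|C| + 1)) * (N : ℝ) ^ δ) :=
          mul_le_mul_of_nonneg_left h3 (by positivity)
      _ = _ := by field_simp
  calc C * (Real.log N + 1) ≤ |C| * (Real.log N + 1) := mul_le_mul_of_nonneg_right hC (by linarith)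
    _ ≤ _ := by nlinarith

theorem sets_of_full (h : DiscreteKakeya) : DiscreteKakeyaSets := by
  intro ε hε
  obtain ⟨δ, hδ⟩ : ∃ δ, δ = ε / 4 := ⟨_, rfl⟩
  have hδ0 : 0 < δ := by rw [hδ]; positivity
  obtain ⟨N₁, hN₁⟩ := h δ hδ0
  obtain ⟨N₂, hN₂⟩ := eventually_atTop.1 (ev_log 4 (show 0 < 2 * δ by positivity))
  refine ⟨max (max N₁ N₂) 1, fun N hN D hD E hE => ?_⟩
  have hN1 : N₁ ≤ N := le_trans (le_trans (le_max_left _ _) (le_max_left _ _)) hN
  have hN2 : N₂ ≤ N := le_trans (le_trans (le_max_right _ _) (le_max_left _ _)) hN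
  have hN3 : 1 ≤ N := le_trans (le_max_right _ _) hN
  have hNr : (1 : ℝ) ≤ N := by exact_mod_cast hN3
  have hlog := hN₂ N hN2
  rcases D.eq_empty_or_nonempty with rfl | hne
  · simp only [card_empty, Nat.cast_zero]
    positivity
  have hDpos : (0 : ℝ) < D.card := by exact_mod_cast Finset.card_pos.2 hne
  have hDN : (D.card : ℝ) ≤ N := by
    have : D ⊆ Icc 1 N := fun d hd => mem_Icc.2 (hD d hd)
    have := Finset.card_le_card this
    rw [Nat.card_Icc, Nat.add_sub_cancel] at this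
    exact_mod_cast this
  obtain ⟨T, hT1, hT2⟩ := translates D hD hne
  have hK : (1 : ℝ) ≤ (N : ℝ) ^ δ := Real.one_le_rpow hNr hδ0.le
  have hKε : (N : ℝ) ^ δ ≤ (N : ℝ) ^ ε := Real.rpow_le_rpow_of_exponent_le hNr (by linarith)
  obtain ⟨E', hE1, hE2⟩ := fill E D T ((N : ℝ) ^ δ) (by positivity)
    (fun d hd => (hE d hd).mono hKε)
  have h1 := hN₁ N hN1 E' (fun d hd1 hd2 => hE2 d (hT2 d hd1 hd2))
  have hlog0 : 0 ≤ Real.log N := Real.log_nonneg hNr
  have hE0 : (0 : ℝ) ≤ E.card := Nat.cast_nonneg _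
  have h1' := h1.trans hE1
  clear hE1 h1 hN₁ hN₂ hE2 hE
  generalize (E.card : ℝ) = e at *
  generalize (D.card : ℝ) = dc at *
  generalize (T.card : ℝ) = tc at *
  have h2 : tc * dc ≤ 2 * N * (Real.log N + 1) := by
    calc tc * dc ≤ (2 * N / dc * Real.log N + 1) * dc :=
          mul_le_mul_of_nonneg_right hT1 hDpos.le
      _ = 2 * N * Real.log N + dc := by field_simp
      _ ≤ _ := by nlinarith
  have h3 : (N : ℝ) * dc ≤ (N * ((N : ℝ) ^ ε)) * e := by
    have e1 : (N : ℝ) = (N : ℝ) ^ (1 - δ) * (N : ℝ) ^ δ := by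
      rw [← Real.rpow_add (by linarith)]
      simp
    have e2 : (N : ℝ) ^ ε = (N : ℝ) ^ δ * (N : ℝ) ^ δ * (N : ℝ) ^ (2 * δ) := by
      rw [← Real.rpow_add (by linarith), ← Real.rpow_add (by linarith)]
      congr 1
      linarith
    calc (N : ℝ) * dc = (N : ℝ) ^ δ * (dc * (N : ℝ) ^ (1 - δ)) := by
          conv_lhs => rw [e1]
          ring
      _ ≤ (N : ℝ) ^ δ * (dc * (tc * ((N : ℝ) ^ δ + 1) * e)) := by
          apply mul_le_mul_of_nonneg_left _ (by positivity)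
          apply mul_le_mul_of_nonneg_left h1' hDpos.le
      _ = (tc * dc) * ((N : ℝ) ^ δ * ((N : ℝ) ^ δ + 1) * e) := by ring
      _ ≤ (2 * N * (Real.log N + 1)) * ((N : ℝ) ^ δ * ((N : ℝ) ^ δ + 1) * e) :=
          mul_le_mul_of_nonneg_right h2 (by positivity)
      _ ≤ (2 * N * (Real.log N + 1)) * ((N : ℝ) ^ δ * (2 * (N : ℝ) ^ δ) * e) := by
          apply mul_le_mul_of_nonneg_left _ (by positivity)
          apply mul_le_mul_of_nonneg_right _ (by positivity)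
          apply mul_le_mul_of_nonneg_left _ (by positivity)
          linarith
      _ = N * ((N : ℝ) ^ δ * (N : ℝ) ^ δ * (4 * (Real.log N + 1))) * e := by ring
      _ ≤ N * ((N : ℝ) ^ δ * (N : ℝ) ^ δ * (N : ℝ) ^ (2 * δ)) * e := by
          apply mul_le_mul_of_nonneg_right _ (by positivity)
          apply mul_le_mul_of_nonneg_left _ (by positivity)
          apply mul_le_mul_of_nonneg_left hlog (by positivity)
      _ = _ := by rw [e2]
  rw [mul_assoc] at h3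
  exact le_of_mul_le_mul_left h3 (by linarith)

theorem full_of_sets (h : DiscreteKakeyaSets) : DiscreteKakeya := by
  intro ε hε
  obtain ⟨N₁, hN₁⟩ := h ε hε
  refine ⟨max N₁ 1, fun N hN E hE => ?_⟩
  have hN1 : N₁ ≤ N := le_trans (le_max_left _ _) hN
  have hN3 : 1 ≤ N := le_trans (le_max_right _ _) hN
  have hNr : (0 : ℝ) < N := by exact_mod_cast hN3
  have h1 := hN₁ N hN1 (Icc 1 N) (fun d hd => mem_Icc.1 hd) E
    (fun d hd => hE d (mem_Icc.1 hd).1 (mem_Icc.1 hd).2)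
  rw [Nat.card_Icc, Nat.add_sub_cancel] at h1
  rw [Real.rpow_sub hNr, Real.rpow_one, div_le_iff₀ (by positivity)]
  linarith

end Pool.Agent.H605.Web
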