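import Pool.Agent.H605.Web.Impl2

/-!
# The covering problem for exponents near `1` implies the discrete Kakeya statement
-/

set_option autoImplicit false

open Finset Filter

namespace Pool.Agent.H605.Web

open Pool.Agent.H170R2.PC

/-- a choice of residues covering few integers of `[1, n]`, from a set with long progressions -/
theorem covered_le {α : ℝ} {n : ℕ} (hn : 1 ≤ n) (E : Finset ℤ) (K : ℝ)
    (hE : ∀ p : ℕ, InRange α n p → HasAP E K p ∧ 2 * (n : ℝ) ≤ K * p) :
    ∃ a : (p : ℕ) → ZMod p, coveredCount α n a ≤ E.card := by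
  classical
  have h1 : ∀ p : ℕ, ∃ b t : ℤ, InRange α n p → ∀ y : ℤ, t * n < y → y ≤ t * n + n →
      (p : ℤ) ∣ y - b → y ∈ E := by
    intro p
    by_cases hp : InRange α n p
    · obtain ⟨⟨b, hb⟩, hK⟩ := hE p hp
      have hppos : (0 : ℤ) < p := by exact_mod_cast hp.1.pos
      -- `t n` is the first multiple of `n` which is at least `b`
      refine ⟨b, (b + n - 1) / n, fun _ y hy1 hy2 hy3 => ?_⟩
      have hn0 : (0 : ℤ) < n := by exact_mod_cast hn
      have h2 := Int.emod_nonneg (b + n - 1) hn0.ne'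
      have h3 := Int.emod_lt_of_pos (b + n - 1) hn0
      have h4 := Int.emod_add_mul_ediv (b + n - 1) n
      have h5 : b ≤ (b + n - 1) / n * n := by linarith
      have h6 : (b + n - 1) / n * n ≤ b + n - 1 := by linarith
      obtain ⟨c, hc⟩ := hy3
      have hc0 : 0 ≤ c := by
        by_contra hcon
        push Not at hcon
        have : (p : ℤ) * c < 0 := mul_neg_of_pos_of_neg hppos hcon
        linarith
      obtain ⟨j, rfl⟩ := Int.eq_ofNat_of_zero_le hc0
      have h7 : y = b + j * p := by linarith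
      rw [h7]
      apply hb
      have h8 : (j : ℤ) * p ≤ 2 * n := by linarith
      have h9 : (j : ℝ) * p ≤ K * p := by
        have : (j : ℝ) * p ≤ 2 * n := by exact_mod_cast h8
        linarith
      exact le_of_mul_le_mul_right h9 (by exact_mod_cast hp.1.pos)
    · exact ⟨0, 0, fun h => absurd h hp⟩
  choose b t hbt using h1
  refine ⟨fun p => ((b p - t p * n : ℤ) : ZMod p), ?_⟩
  rw [coveredCount_eq]
  -- every covered integer is congruent modulo `n` to an element of `E`
  have h2 : ∀ y ∈ Cov (PD α n) (fun p => ((b p - t p * n : ℤ) : ZMod p)) n,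
      ∃ e ∈ E, (n : ℤ) ∣ e - y := by
    intro y hy
    rw [Cov, mem_filter, mem_Icc] at hy
    obtain ⟨⟨h3, h4⟩, p, hp, h5⟩ := hy
    have h6 : (p : ℤ) ∣ (y + t p * n) - b p := by
      have h7 : ((y - (b p - t p * n) : ℤ) : ZMod p) = 0 := by
        rw [Int.cast_sub, sub_eq_zero]
        rw [← h5]
        push_cast
        rfl
      rw [ZMod.intCast_zmod_eq_zero_iff_dvd] at h7
      have h8 : (y : ℤ) - (b p - t p * n) = (y + t p * n) - b p := by ring
      rwa [h8] at h7
    refine ⟨y + t p * n, hbt p (mem_PD.1 hp) _ (by omega) (by omega) h6, ?_⟩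
    exact ⟨t p, by ring⟩
  choose! e he1 he2 using h2
  apply Finset.card_le_card_of_injOn e (fun y hy => he1 y hy)
  intro y hy z hz hyz
  have h3 := he2 y hy
  have h4 := he2 z hz
  rw [mem_coe, Cov, mem_filter, mem_Icc] at hy hz
  rw [← hyz] at h4
  have h5 : (n : ℤ) ∣ (z : ℤ) - y := by
    have := dvd_sub h3 h4
    have h6 : e y - (y : ℤ) - (e y - z) = z - y := by ring
    rwa [h6] at this
  obtain ⟨c, hc⟩ := h5
  have hn0 : (0 : ℤ) < n := by exact_mod_cast hn
  have h7 : (n : ℤ) * c < n * 1 := by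
    have := hy.1.1
    have := hz.1.2
    linarith
  have h8 : (n : ℤ) * (-1) < n * c := by
    have := hy.1.2
    have := hz.1.1
    linarith
  have h9 := lt_of_mul_lt_mul_left h7 hn0.le
  have h10 := lt_of_mul_lt_mul_left h8 hn0.le
  have h11 : c = 0 := by omega
  rw [h11, mul_zero] at hc
  omega

/-- the covering problem for exponents `α` near `1` -/
def NearOne : Prop :=
  ∀ ε : ℝ, 0 < ε → ∃ α : ℝ, 1 - ε < α ∧ α < 1 ∧ LowerExponent α (1 - ε)

theorem full_of_nearOne (h : NearOne) : DiscreteKakeya := by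
  intro ε hε
  obtain ⟨δ, hδ⟩ : ∃ δ, δ = min ε 1 / 8 := ⟨_, rfl⟩
  have hmin : 0 < min ε 1 := lt_min hε one_pos
  have hδ0 : 0 < δ := by rw [hδ]; positivity
  have hδ1 : 8 * δ ≤ ε := by
    rw [hδ]
    have := min_le_left ε 1
    linarith
  have hδ2 : 8 * δ ≤ 1 := by
    rw [hδ]
    have := min_le_right ε 1
    linarith
  obtain ⟨α, hα1, hα2, hα3⟩ := h δ hδ0
  obtain ⟨N₁, hN₁⟩ := hα3 δ hδ0
  obtain ⟨N₂, hN₂⟩ := eventually_atTop.1 (ev_pow 4 hδ0)
  refine ⟨max (max (2 * N₁) N₂) 2, fun N hN E hE => ?_⟩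
  have hN1 : 2 * N₁ ≤ N := le_trans (le_trans (le_max_left _ _) (le_max_left _ _)) hN
  have hN2 : N₂ ≤ N := le_trans (le_trans (le_max_right _ _) (le_max_left _ _)) hN
  have hN3 : 2 ≤ N := le_trans (le_max_right _ _) hN
  have hNr : (1 : ℝ) ≤ N := by exact_mod_cast (by omega : 1 ≤ N)
  have hN0 : (0 : ℝ) < N := by linarith
  obtain ⟨n, hn⟩ : ∃ n, n = N / 2 := ⟨_, rfl⟩
  have hn1 : 1 ≤ n := by omega
  have hn2 : N₁ ≤ n := by omega
  have hn3 : 2 * n ≤ N := by omega
  have hn4 : N ≤ 4 * n := by omega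
  have hnr : (1 : ℝ) ≤ n := by exact_mod_cast hn1
  have hn3r : 2 * (n : ℝ) ≤ N := by exact_mod_cast hn3
  have hn4r : (N : ℝ) ≤ 4 * n := by exact_mod_cast hn4
  have h4 := hN₂ N hN2
  obtain ⟨a, ha⟩ := covered_le (α := α) hn1 E ((N : ℝ) ^ ε) (fun p hp => by
    have h5 : (p : ℝ) ≤ N := by
      have h6 : (n : ℝ) ^ α ≤ n := by
        calc (n : ℝ) ^ α ≤ (n : ℝ) ^ (1 : ℝ) := Real.rpow_le_rpow_of_exponent_le hnr hα2.le
          _ = n := Real.rpow_one _
      linarith [hp.2.2]
    refine ⟨hE p hp.1.one_le (by exact_mod_cast h5), ?_⟩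
    calc 2 * (n : ℝ) = 2 * ((n : ℝ) ^ (1 - α) * (n : ℝ) ^ α) := by
          rw [← Real.rpow_add (by linarith)]
          simp
      _ ≤ 2 * ((N : ℝ) ^ δ * (n : ℝ) ^ α) := by
          apply mul_le_mul_of_nonneg_left _ (by norm_num)
          apply mul_le_mul_of_nonneg_right _ (by positivity)
          calc (n : ℝ) ^ (1 - α) ≤ (n : ℝ) ^ δ :=
                Real.rpow_le_rpow_of_exponent_le hnr (by linarith)
            _ ≤ (N : ℝ) ^ δ := Real.rpow_le_rpow (by linarith) (by linarith) hδ0.le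
      _ ≤ (N : ℝ) ^ δ * ((N : ℝ) ^ δ * (n : ℝ) ^ α) := by
          apply mul_le_mul_of_nonneg_right (by linarith) (by positivity)
      _ = (N : ℝ) ^ (2 * δ) * (n : ℝ) ^ α := by
          rw [← mul_assoc, ← Real.rpow_add hN0]
          congr 2
          ring
      _ ≤ (N : ℝ) ^ ε * p := by
          apply mul_le_mul _ hp.2.1 (by positivity) (by positivity)
          exact Real.rpow_le_rpow_of_exponent_le hNr (by linarith))
  have h5 := hN₁ n hn2 a
  have h6 : (coveredCount α n a : ℝ) ≤ E.card := by exact_mod_cast ha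
  refine le_trans ?_ (h5.trans h6)
  have e1 : (1 : ℝ) - δ - δ = 1 - 2 * δ := by ring
  rw [e1]
  calc (N : ℝ) ^ (1 - ε) ≤ (N : ℝ) ^ (1 - 3 * δ) :=
        Real.rpow_le_rpow_of_exponent_le hNr (by linarith)
    _ ≤ (n : ℝ) ^ (1 - 2 * δ) := by
        have h7 : (N : ℝ) ^ (1 - 3 * δ) * 4 ≤ (n : ℝ) ^ (1 - 2 * δ) * 4 := by
          calc (N : ℝ) ^ (1 - 3 * δ) * 4 ≤ (N : ℝ) ^ (1 - 3 * δ) * (N : ℝ) ^ δ :=
                mul_le_mul_of_nonneg_left h4 (by positivity)
            _ = (N : ℝ) ^ (1 - 2 * δ) := by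
                rw [← Real.rpow_add hN0]
                congr 1
                ring
            _ ≤ (4 * n : ℝ) ^ (1 - 2 * δ) := Real.rpow_le_rpow hN0.le hn4r (by linarith)
            _ = (4 : ℝ) ^ (1 - 2 * δ) * (n : ℝ) ^ (1 - 2 * δ) :=
                Real.mul_rpow (by norm_num) (by linarith)
            _ ≤ 4 * (n : ℝ) ^ (1 - 2 * δ) := by
                apply mul_le_mul_of_nonneg_right _ (by positivity)
                calc (4 : ℝ) ^ (1 - 2 * δ) ≤ (4 : ℝ) ^ (1 : ℝ) :=
                      Real.rpow_le_rpow_of_exponent_le (by norm_num) (by linarith)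
                  _ = 4 := Real.rpow_one _
            _ = _ := by ring
        linarith

end Pool.Agent.H605.Web
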