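import Pool.Agent.H605.Web.Impl3
import Pool.Agent.H605.Kak.Core

/-!
# The question of Erdos on multiples in short intervals implies the discrete Kakeya statement
-/

set_option autoImplicit false

open Finset Filter N047c7463 Asymptotics

namespace Pool.Agent.H605.Web

/-- the number of primes up to `n` -/
theorem pi_lower : ∀ᶠ n : ℕ in atTop,
    (68 : ℝ) / 100 * n / Real.log n ≤ Nat.primeCounting n := by
  filter_upwards [ev_log 100 (show (0 : ℝ) < 1 by norm_num), eventually_ge_atTop 2] with n h1 h2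
  have hn : (2 : ℝ) ≤ n := by exact_mod_cast h2
  rw [Real.rpow_one] at h1
  refine le_trans ?_ (Chebyshev.pi_ge n)
  have hlog : 0 < Real.log n := Real.log_pos (by linarith)
  apply div_le_div_of_nonneg_right _ hlog.le
  have h3 : Real.log ((n : ℝ) + 1) ≤ Real.log n + 1 := by
    have h4 : (n : ℝ) + 1 ≤ n * Real.exp 1 := by
      have h3 := Real.add_one_le_exp (1 : ℝ)
      nlinarith
    calc Real.log ((n : ℝ) + 1) ≤ Real.log (n * Real.exp 1) :=
          Real.log_le_log (by positivity) h4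
      _ = Real.log n + 1 := by
          rw [Real.log_mul (by positivity) (Real.exp_pos _).ne', Real.log_exp]
  have := Real.log_two_gt_d9
  nlinarith

/-- the finite set of the positions of the multiples -/
theorem positions (E : Finset ℤ) (q : ℕ) (hq : 0 < q) (k : ℕ) : ∃ T : Finset (ℕ × ℕ),
    T.card ≤ 2 * k * E.card ∧ ∀ a : ℤ, ∀ d : ℕ, ∀ j < k, j * d ≤ q → a + j * d ∈ E →
      (j, (a % q).toNat + j * d) ∈ T := by
  classical
  refine ⟨range k ×ˢ (E.image (fun e : ℤ => (e % q).toNat) ∪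
    E.image (fun e : ℤ => (e % q).toNat + q)), ?_, ?_⟩
  · rw [card_product, card_range]
    have h1 := Finset.card_union_le (E.image (fun e : ℤ => (e % q).toNat))
      (E.image (fun e : ℤ => (e % q).toNat + q))
    have h2 := Finset.card_image_le (s := E) (f := fun e : ℤ => (e % q).toNat)
    have h3 := Finset.card_image_le (s := E) (f := fun e : ℤ => (e % q).toNat + q)
    calc k * _ ≤ k * (2 * E.card) := Nat.mul_le_mul_left k (by omega)
      _ = _ := by ring
  · intro a d j hj hjd hE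
    rw [mem_product, mem_range]
    refine ⟨hj, ?_⟩
    have hq0 : (0 : ℤ) < q := by exact_mod_cast hq
    have h1 := Int.emod_nonneg a hq0.ne'
    have h2 := Int.emod_lt_of_pos a hq0
    have h3 : ((a % q).toNat : ℤ) = a % q := Int.toNat_of_nonneg h1
    have h4 : (j : ℤ) * d ≤ q := by exact_mod_cast hjd
    have h40 : (0 : ℤ) ≤ j * d := by positivity
    have h5 : (a + j * d) % q = (a % q + j * d) % q := by
      simp
    have h50 := Int.emod_nonneg (a + j * d) hq0.ne'
    have h51 := Int.emod_lt_of_pos (a + j * d) hq0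
    have h6 : (((a + j * d) % q).toNat : ℤ) = (a + j * d) % q := Int.toNat_of_nonneg h50
    simp only
    rw [mem_union, mem_image, mem_image]
    by_cases h7 : a % q + j * d < q
    · left
      refine ⟨_, hE, ?_⟩
      have h8 : (a + j * d) % q = a % q + j * d := by
        rw [h5]; exact Int.emod_eq_of_lt (by linarith) h7
      zify
      rw [h6, h3, h8]
    · right
      refine ⟨_, hE, ?_⟩
      push Not at h7
      have h8 : (a + j * d) % q = a % q + j * d - q := by
        rw [h5, ← Int.emod_emod_of_dvd _ (dvd_refl (q : ℤ))]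
        have h9 : (a % q + j * d) % q = (a % q + j * d - q) % q := by
          rw [Int.sub_emod_right]
        rw [h9, Int.emod_emod_of_dvd _ (dvd_refl (q : ℤ))]
        exact Int.emod_eq_of_lt (by linarith) (by linarith)
      zify
      rw [h6, h3, h8]
      ring

set_option maxHeartbeats 4000000 in
theorem full_of_erdos (h : ErdosMultiples) : DiscreteKakeya := by
  classical
  intro ε hε
  obtain ⟨δ, hδ⟩ : ∃ δ, δ = min ε 1 / 8 := ⟨_, rfl⟩
  have hmin : 0 < min ε 1 := lt_min hε one_pos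
  have hδ0 : 0 < δ := by rw [hδ]; positivity
  have hδ1 : 8 * δ ≤ ε := by
    rw [hδ]
    have := min_le_left ε 1
    linarith
  have hδ2 : 8 * δ ≤ 1 := by
    rw [hδ]
    have := min_le_right ε 1
    linarith
  obtain ⟨error, herr, hev⟩ := h
  have herr2 : ∀ᶠ n : ℕ in atTop, error n ≤ δ / 12 := by
    have := herr.bound (show (0 : ℝ) < δ / 12 by positivity)
    filter_upwards [this] with n hn
    rw [norm_one, mul_one] at hn
    exact (le_abs_self _).trans hn
  -- all the conditions on `N`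
  have hcube : Tendsto (fun N : ℕ => N ^ 3) atTop atTop := tendsto_pow_atTop (by norm_num)
  have hall : ∀ᶠ N : ℕ in atTop, ∀ E : Finset ℤ,
      (∀ d : ℕ, 1 ≤ d → d ≤ N → HasAP E ((N : ℝ) ^ ε) d) → (N : ℝ) ^ (1 - ε) ≤ (E.card : ℝ) := by
    filter_upwards [hcube.eventually hev, hcube.eventually herr2, hcube.eventually pi_lower,
      ev_log 2000 (show 0 < δ / 4 by positivity), ev_log 2000 (show (0 : ℝ) < 1 / 2 by norm_num),
      eventually_ge_atTop 100] with N h1 h2 h3 h4 h5 hN E hE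
    by_contra hcon
    push Not at hcon
    have hNr : (100 : ℝ) ≤ N := by exact_mod_cast hN
    have hNr1 : (1 : ℝ) ≤ N := by linarith
    have hN0 : (0 : ℝ) < N := by linarith
    obtain ⟨y, hy⟩ : ∃ y, y = Real.log N := ⟨_, rfl⟩
    rw [← hy] at h4 h5
    have hy1 : 1 ≤ y := by
      rw [hy, Real.le_log_iff_exp_le hN0]
      have := Real.exp_one_lt_d9
      linarith
    obtain ⟨n, hn⟩ : ∃ n, n = N ^ 3 := ⟨_, rfl⟩
    rw [← hn] at h1 h2 h3
    have hnr : (n : ℝ) = (N : ℝ) ^ 3 := by rw [hn]; push_cast; ring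
    have hlogn : Real.log n = 3 * y := by
      rw [hnr, Real.log_pow, hy]; push_cast; ring
    have hn0 : (0 : ℝ) < n := by rw [hnr]; positivity
    rw [hlogn] at h3
    -- `y ≤ N ^ (1/2) / 2000`
    have hsq : (N : ℝ) ^ ((1 : ℝ) / 2) * (N : ℝ) ^ ((1 : ℝ) / 2) = N := by
      rw [← Real.rpow_add hN0]; norm_num
    have hyN : 2000 * (y + 1) ≤ N := by
      have h6 : (N : ℝ) ^ ((1 : ℝ) / 2) ≤ N := by
        calc (N : ℝ) ^ ((1 : ℝ) / 2) ≤ (N : ℝ) ^ (1 : ℝ) :=
              Real.rpow_le_rpow_of_exponent_le hNr1 (by norm_num)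
          _ = N := Real.rpow_one _
      linarith
    obtain ⟨N0, hN0d⟩ : ∃ N0, N0 = ⌊(n : ℝ) / (12 * y)⌋₊ := ⟨_, rfl⟩
    have hN01 : (N0 : ℝ) ≤ n / (12 * y) := by rw [hN0d]; exact Nat.floor_le (by positivity)
    have hN02 : (n : ℝ) / (12 * y) < N0 + 1 := by rw [hN0d]; exact Nat.lt_floor_add_one _
    have hbig : 100 * (N : ℝ) ^ 2 ≤ n / (12 * y) := by
      rw [le_div_iff₀ (by positivity), hnr]
      calc 100 * (N : ℝ) ^ 2 * (12 * y) = (N : ℝ) ^ 2 * (1200 * y) := by ring
        _ ≤ (N : ℝ) ^ 2 * N := mul_le_mul_of_nonneg_left (by linarith) (by positivity)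
        _ = _ := by ring
    have hNsq : (N : ℝ) ≤ (N : ℝ) ^ 2 := by nlinarith
    have hny : (n : ℝ) / (12 * y) ≤ n / 12 :=
      div_le_div_of_nonneg_left hn0.le (by norm_num) (by linarith)
    have hwin : N0 + (N + 1) < n := by
      have h6 : (N0 : ℝ) + (N + 1) < n := by
        have h7 : 100 * (N : ℝ) ^ 2 ≤ n / 12 := hbig.trans hny
        nlinarith
      exact_mod_cast h6
    obtain ⟨v, hv1, hv2, hv3⟩ := Pool.Agent.H605.Kak.window (n := n) (N := N + 1) (N0 := N0)
      (Icc 1 N) (fun d hd => by rw [mem_Icc] at hd; omega) hwin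
    obtain ⟨D, hD⟩ : ∃ D, D = (Icc 1 N).filter fun d => (v + d).Prime := ⟨_, rfl⟩
    rw [← hD, Nat.card_Icc, Nat.add_sub_cancel] at hv3
    have hv3' : (N : ℝ) * Nat.primeCounting n ≤ N * (N0 + 2 * (N + 1)) + n * D.card := by
      exact_mod_cast hv3
    obtain ⟨dc, hdc⟩ : ∃ dc : ℝ, dc = D.card := ⟨_, rfl⟩
    rw [← hdc] at hv3'
    have hDc : (N : ℝ) / (9 * y) ≤ dc := by
      have h6 : (n : ℝ) / (9 * y) ≤ Nat.primeCounting n - N0 - 2 * (N + 1) := by
        have h7 : (2 : ℝ) * (N + 1) ≤ n / (12 * y) / 10 := by nlinarith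
        have h8 : (68 : ℝ) / 100 * n / (3 * y) - n / (12 * y) - n / (12 * y) / 10 ≤
          Nat.primeCounting n - N0 - 2 * (N + 1) := by linarith
        refine le_trans ?_ h8
        have e1 : (68 : ℝ) / 100 * n / (3 * y) - n / (12 * y) - n / (12 * y) / 10 =
            (n / y) * (68 / 300 - 1 / 12 - 1 / 120) := by
          field_simp
          ring
        have e2 : (n : ℝ) / (9 * y) = (n / y) * (1 / 9) := by
          field_simp
        rw [e1, e2]
        apply mul_le_mul_of_nonneg_left _ (by positivity)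
        norm_num
      have h9 : (N : ℝ) * (n / (9 * y)) ≤ n * dc := by
        calc (N : ℝ) * (n / (9 * y)) ≤ N * (Nat.primeCounting n - N0 - 2 * (N + 1)) :=
              mul_le_mul_of_nonneg_left h6 hN0.le
          _ ≤ _ := by linarith
      have h10 : (N : ℝ) * (n / (9 * y)) = n * (N / (9 * y)) := by ring
      rw [h10] at h9
      exact le_of_mul_le_mul_left h9 hn0
    -- the number of windows
    obtain ⟨k, hk⟩ : ∃ k, k = ⌈(N : ℝ) ^ δ⌉₊ := ⟨_, rfl⟩
    have hNδ : 1 ≤ (N : ℝ) ^ δ := Real.one_le_rpow hNr1 hδ0.le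
    have h4' : 2000 * (y + 1) ≤ (N : ℝ) ^ δ :=
      h4.trans (Real.rpow_le_rpow_of_exponent_le hNr1 (by linarith))
    have hk1 : (N : ℝ) ^ δ ≤ k := by rw [hk]; exact Nat.le_ceil _
    have hk2 : (k : ℝ) ≤ 2 * (N : ℝ) ^ δ := by
      have : (k : ℝ) < (N : ℝ) ^ δ + 1 := by rw [hk]; exact Nat.ceil_lt_add_one (by linarith)
      linarith
    have hkN : (k : ℝ) ≤ N := by
      have h6 : (N : ℝ) ^ δ ≤ (N : ℝ) ^ ((1 : ℝ) / 2) :=
        Real.rpow_le_rpow_of_exponent_le hNr1 (by linarith)
      have h7 : 2 ≤ (N : ℝ) ^ ((1 : ℝ) / 2) := by nlinarith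
      nlinarith
    have hkN' : k ≤ N := by exact_mod_cast hkN
    obtain ⟨T, hT1, hT2⟩ := positions E (N ^ 2) (by positivity) k
    -- the first terms
    have hEx : ∀ d : ℕ, ∃ a : ℤ, d ∈ D → ∀ j : ℕ, (j : ℝ) ≤ (N : ℝ) ^ ε → a + j * d ∈ E := by
      intro d
      by_cases hd : d ∈ D
      · have hd' := hd
        rw [hD, mem_filter, mem_Icc] at hd'
        obtain ⟨a, ha⟩ := hE d hd'.1.1 hd'.1.2
        exact ⟨a, fun _ => ha⟩
      · exact ⟨0, fun h => absurd h hd⟩
    choose a ha using hEx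
    have hNv : N ^ 2 ≤ v := by
      have h6 : ((N ^ 2 : ℕ) : ℝ) < N0 + 1 := by
        push_cast
        nlinarith
      have h7 : N ^ 2 < N0 + 1 := by exact_mod_cast h6
      omega
    have hTD : T.card < D.card := by
      have h6 : (T.card : ℝ) < D.card := by
        rw [← hdc]
        have h7 : (T.card : ℝ) ≤ 2 * k * E.card := by exact_mod_cast hT1
        have hE0 : (0 : ℝ) ≤ E.card := Nat.cast_nonneg _
        obtain ⟨e, he⟩ : ∃ e : ℝ, e = E.card := ⟨_, rfl⟩
        rw [← he] at h7 hcon hE0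
        have h8 : 2 * (k : ℝ) * e ≤ 4 * (N : ℝ) ^ δ * (N : ℝ) ^ (1 - ε) := by
          calc 2 * (k : ℝ) * e ≤ 2 * (2 * (N : ℝ) ^ δ) * (N : ℝ) ^ (1 - ε) :=
                mul_le_mul (by linarith) hcon.le hE0 (by positivity)
            _ = _ := by ring
        have h9 : 4 * (N : ℝ) ^ δ * (N : ℝ) ^ (1 - ε) < N / (9 * y) := by
          rw [lt_div_iff₀ (by positivity)]
          have h10 : 36 * y < (N : ℝ) ^ δ := by linarith only [h4', hy1]
          calc 4 * (N : ℝ) ^ δ * (N : ℝ) ^ (1 - ε) * (9 * y)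
              = (N : ℝ) ^ δ * (N : ℝ) ^ (1 - ε) * (36 * y) := by ring
            _ < (N : ℝ) ^ δ * (N : ℝ) ^ (1 - ε) * (N : ℝ) ^ δ :=
                mul_lt_mul_of_pos_left h10 (by positivity)
            _ = (N : ℝ) ^ (δ + (1 - ε) + δ) := by
                rw [Real.rpow_add hN0, Real.rpow_add hN0]
            _ ≤ (N : ℝ) ^ (1 : ℝ) := Real.rpow_le_rpow_of_exponent_le hNr1 (by linarith)
            _ = N := Real.rpow_one _
        linarith
      exact_mod_cast h6
    obtain ⟨m, hm⟩ := Pool.Agent.H605.Kak.core_general (n := n) (v := v) (k := k) (D := D)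
      (fun d => (a d % (N ^ 2 : ℕ)).toNat)
      (fun d hd => by
        rw [hD, mem_filter, mem_Icc] at hd
        exact ⟨hd.2, by omega⟩)
      (fun d hd => by
        have hq0 : (0 : ℤ) < ((N ^ 2 : ℕ) : ℤ) := by positivity
        have h6 := Int.emod_nonneg (a d) hq0.ne'
        have h7 := Int.emod_lt_of_pos (a d) hq0
        have h8 : (a d % (N ^ 2 : ℕ)).toNat < N ^ 2 := (Int.toNat_lt h6).2 h7
        omega)
      T
      (fun d hd j hj => by
        apply hT2 (a d) d j hj
        · have hd' := hd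
          rw [hD, mem_filter, mem_Icc] at hd'
          calc j * d ≤ N * N := Nat.mul_le_mul (by omega) hd'.1.2
            _ = N ^ 2 := by ring
        · apply ha d hd
          have h6 : (j : ℝ) < (N : ℝ) ^ δ := by
            rw [hk] at hj
            exact Nat.lt_ceil.1 hj
          refine h6.le.trans (Real.rpow_le_rpow_of_exponent_le hNr1 (by linarith)))
      hTD
    obtain ⟨L, hL1, hL2⟩ := h1 m
    have h6 : (k : ℝ) * v < L := by exact_mod_cast hm L hL1
    have h7 : (L : ℝ) ≤ n * (N : ℝ) ^ (δ / 4) := by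
      refine hL2.trans ?_
      rw [Real.rpow_eq_pow]
      calc (n : ℝ) ^ (1 + error n) ≤ (n : ℝ) ^ (1 + δ / 12) := by
            apply Real.rpow_le_rpow_of_exponent_le _ (by linarith)
            rw [hnr]
            exact one_le_pow₀ hNr1
        _ = n * (n : ℝ) ^ (δ / 12) := by rw [Real.rpow_add hn0, Real.rpow_one]
        _ = n * (N : ℝ) ^ (δ / 4) := by
            rw [hnr, ← Real.rpow_natCast, ← Real.rpow_mul hN0.le]
            congr 2
            push_cast
            ring
    have h8 : (n : ℝ) / (12 * y) ≤ v := by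
      have h9 : (N0 : ℝ) + 1 ≤ v := by exact_mod_cast hv1
      linarith
    have h10 : (N : ℝ) ^ δ * (n / (12 * y)) ≤ k * v :=
      mul_le_mul hk1 h8 (by positivity) (Nat.cast_nonneg _)
    have h11 : (N : ℝ) ^ δ * (n / (12 * y)) < n * (N : ℝ) ^ (δ / 4) := by linarith
    have h12 : (N : ℝ) ^ (δ / 4) * (N : ℝ) ^ (δ / 4) * ((N : ℝ) ^ (δ / 4) * (N : ℝ) ^ (δ / 4)) =
        (N : ℝ) ^ δ := by
      rw [← Real.rpow_add hN0, ← Real.rpow_add hN0]
      congr 1
      ring
    obtain ⟨z, hz⟩ : ∃ z, z = (N : ℝ) ^ (δ / 4) := ⟨_, rfl⟩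
    have hz1 : 1 ≤ z := by rw [hz]; exact Real.one_le_rpow hNr1 (by positivity)
    rw [← hz] at h11 h12 h4
    have h13 : (N : ℝ) ^ δ < z * (12 * y) := by
      have h14 : (N : ℝ) ^ δ * (n / (12 * y)) = n * ((N : ℝ) ^ δ / (12 * y)) := by ring
      rw [h14] at h11
      have h15 := lt_of_mul_lt_mul_left h11 hn0.le
      rwa [div_lt_iff₀ (by positivity)] at h15
    rw [← h12] at h13
    have h16 : z * z * 1 ≤ z * z * (z * z) :=
      mul_le_mul_of_nonneg_left (by nlinarith only [hz1]) (by positivity)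
    have h17 : z * (12 * y) ≤ z * z := mul_le_mul_of_nonneg_left (by linarith only [h4, hy1])
      (by linarith only [hz1])
    linarith only [h13, h16, h17]
  obtain ⟨N₀, hN₀⟩ := eventually_atTop.1 hall
  exact ⟨N₀, hN₀⟩

end Pool.Agent.H605.Web
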