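import Pool.Agent.H605.Web.Quant

/-!
# Quantitative equivalence: the exponent of the multiples of sets in short intervals
-/

set_option autoImplicit false

open Finset Filter

namespace Pool.Agent.H605.Web

open Pool.Agent.H170R2.PC

/-- multiples of the elements of sets of integers in short intervals, exponent `θ` -/
def MultSets (θ : ℝ) : Prop :=
  ∀ ε : ℝ, 0 < ε → ∃ N₀ : ℕ, ∀ N : ℕ, N₀ ≤ N → ∀ D : Finset ℕ, (∀ d ∈ D, 1 ≤ d ∧ d ≤ N) →
    ∀ m L : ℕ, (N : ℝ) ^ (1 + ε) ≤ (L : ℝ) →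
      (D.card : ℝ) ≤ (N : ℝ) ^ (1 - θ + ε) *
        (Set.ncard {y : ℕ | m < y ∧ y ≤ m + L ∧ ∃ d ∈ D, d ∣ y} : ℝ)

theorem set_eq (D : Finset ℕ) (m L : ℕ) [DecidablePred fun y : ℕ => ∃ d ∈ D, d ∣ y] :
    Set.ncard {y : ℕ | m < y ∧ y ≤ m + L ∧ ∃ d ∈ D, d ∣ y} =
      ((Ioc m (m + L)).filter fun y => ∃ d ∈ D, d ∣ y).card := by
  rw [← Set.ncard_coe_finset]
  congr 1
  ext y
  simp only [Set.mem_ofPred_eq, coe_filter, mem_Ioc]
  tauto

theorem multSets_of_DKsets {θ : ℝ} (h : DKsets θ) : MultSets θ := by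
  classical
  intro ε hε
  obtain ⟨δ, hδ⟩ : ∃ δ, δ = ε / 2 := ⟨_, rfl⟩
  have hδ0 : 0 < δ := by rw [hδ]; positivity
  obtain ⟨M₀, hM₀⟩ := h δ hδ0
  obtain ⟨M₁, hM₁⟩ := eventually_atTop.1 (ev_pow 2 hδ0)
  refine ⟨max (max M₀ M₁) 1, fun N hN D hD m L hL => ?_⟩
  have hN1 : M₀ ≤ N := le_trans (le_trans (le_max_left _ _) (le_max_left _ _)) hN
  have hN2 : M₁ ≤ N := le_trans (le_trans (le_max_right _ _) (le_max_left _ _)) hN
  have hN3 : 1 ≤ N := le_trans (le_max_right _ _) hN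
  have hNr : (1 : ℝ) ≤ N := by exact_mod_cast hN3
  have hN0 : (0 : ℝ) < N := by linarith
  have h2 := hM₁ N hN2
  have hKL : ((N : ℝ) ^ δ + 1) * N ≤ L := by
    calc ((N : ℝ) ^ δ + 1) * N ≤ (N : ℝ) ^ δ * (N : ℝ) ^ δ * N :=
          mul_le_mul_of_nonneg_right (by nlinarith) hN0.le
      _ = (N : ℝ) ^ (1 + ε) := by
          rw [← Real.rpow_add hN0, ← Real.rpow_add_one hN0.ne']
          congr 1
          rw [hδ]
          ring
      _ ≤ L := hL
  have h3 := hM₀ N hN1 D hD _ (one_window hD (fun _ => 0) L hKL m)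
  have h4 : (Part D (fun _ => 0) (m : ℤ) (m + L)).card ≤
      ((Ioc m (m + L)).filter fun y => ∃ d ∈ D, d ∣ y).card := by
    apply Finset.card_le_card_of_injOn Int.toNat
    · intro y hy
      rw [mem_coe, mem_Part] at hy
      obtain ⟨⟨h5, h6⟩, d, hd, h7⟩ := hy
      have h8 : (y.toNat : ℤ) = y := Int.toNat_of_nonneg (by omega)
      rw [mem_coe, mem_filter, mem_Ioc]
      refine ⟨⟨by omega, by omega⟩, d, hd, ?_⟩
      rw [sub_zero, ← h8] at h7
      exact_mod_cast h7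
    · intro y hy z hz hyz
      rw [mem_coe, mem_Part] at hy hz
      have h5 := hy.1.1
      have h6 := hz.1.1
      omega
  rw [set_eq]
  have h4r : ((Part D (fun _ => 0) (m : ℤ) (m + L)).card : ℝ) ≤
      (((Ioc m (m + L)).filter fun y => ∃ d ∈ D, d ∣ y).card : ℝ) := by exact_mod_cast h4
  refine h3.trans (mul_le_mul ?_ h4r (Nat.cast_nonneg _) (by positivity))
  exact Real.rpow_le_rpow_of_exponent_le hNr (by linarith)

/-- The covered set as a set of multiples: the Chinese remainder theorem. -/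
theorem covered_as_multiples (α : ℝ) (N : ℕ) (a : (p : ℕ) → ZMod p) : ∃ m : ℕ,
    Set.ncard {y : ℕ | m < y ∧ y ≤ m + N ∧ ∃ d ∈ PD α N, d ∣ y} ≤ coveredCount α N a := by
  classical
  have hprime : ∀ p ∈ PD α N, p.Prime := fun p hp => (mem_PD.1 hp).1
  have hpw : Set.Pairwise (↑(PD α N) : Set ℕ) (Function.onFun Nat.Coprime fun d => d) := by
    intro d hd e he hde
    rw [Function.onFun]
    exact (Nat.coprime_primes (hprime d hd) (hprime e he)).2 hde
  obtain ⟨x, hx⟩ := Nat.chineseRemainderOfFinset (fun d => (-(a d)).val) (fun d => d) (PD α N)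
    (fun d hd => (hprime d hd).ne_zero) hpw
  refine ⟨x, ?_⟩
  rw [set_eq, coveredCount_eq]
  apply Finset.card_le_card_of_injOn (fun y => y - x)
  · intro y hy
    rw [mem_coe, mem_filter, mem_Ioc] at hy
    obtain ⟨⟨h1, h2⟩, d, hd, h3⟩ := hy
    rw [mem_coe, Cov, mem_filter, mem_Icc]
    refine ⟨⟨by show 1 ≤ y - x; omega, by show y - x ≤ N; omega⟩, d, hd, ?_⟩
    show ((y - x : ℕ) : ZMod d) = a d
    have hdp := hprime d hd
    have : NeZero d := ⟨hdp.ne_zero⟩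
    have h4 : (x : ZMod d) = -(a d) := by
      have h5 := (ZMod.natCast_eq_natCast_iff _ _ d).2 (hx d hd)
      rw [h5, ZMod.natCast_val, ZMod.cast_id', id]
    have h6 : (y : ZMod d) = 0 := (ZMod.natCast_eq_zero_iff _ _).2 h3
    have h7 : ((y - x : ℕ) : ZMod d) = (y : ZMod d) - (x : ZMod d) := by
      rw [Nat.cast_sub h1.le]
    rw [h7, h6, h4]
    ring
  · intro y hy z hz hyz
    rw [mem_coe, mem_filter, mem_Ioc] at hy hz
    have h1 := hy.1.1
    have h2 := hz.1.1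
    simp only at hyz
    omega

theorem nearOneTheta_of_multSets {θ : ℝ} (hθ0 : 0 ≤ θ) (hθ1 : θ ≤ 1) (h : MultSets θ) :
    NearOneTheta θ := by
  intro ε hε
  obtain ⟨δ, hδ⟩ : ∃ δ, δ = min ε 1 / 8 := ⟨_, rfl⟩
  have hmin : 0 < min ε 1 := lt_min hε one_pos
  have hδ0 : 0 < δ := by rw [hδ]; positivity
  have hδ1 : 8 * δ ≤ ε := by
    rw [hδ]
    have := min_le_left ε 1
    linarith
  have hδ2 : 8 * δ ≤ 1 := by
    rw [hδ]
    have := min_le_right ε 1
    linarith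
  obtain ⟨α, hα⟩ : ∃ α, α = 1 - 4 * δ := ⟨_, rfl⟩
  have hα0 : 0 < α := by linarith
  have hα1 : α < 1 := by linarith
  refine ⟨α, by linarith, hα1, ?_⟩
  obtain ⟨M₀, hM₀⟩ := h δ hδ0
  intro η hη
  have hev : ∀ᶠ N : ℕ in atTop, ∀ a : (p : ℕ) → ZMod p,
      (N : ℝ) ^ (θ - ε - η) ≤ (coveredCount α N a : ℝ) := by
    filter_upwards [ev_card hα0 hα1.le hδ0 (by linarith), ev_pow (M₀ : ℝ) hα0, ev_pow 1 hα0,
      ev_pow 9 hδ0, eventually_ge_atTop 1] with N h1 h2 h3 h4 hN a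
    have hNr : (1 : ℝ) ≤ N := by exact_mod_cast hN
    have hN0 : (0 : ℝ) < N := by linarith
    obtain ⟨x, hx⟩ : ∃ x, x = (N : ℝ) ^ α := ⟨_, rfl⟩
    rw [← hx] at h2 h3
    obtain ⟨M, hM⟩ : ∃ M, M = ⌈2 * x⌉₊ := ⟨_, rfl⟩
    have hM1 : 2 * x ≤ M := by rw [hM]; exact Nat.le_ceil _
    have hM2 : (M : ℝ) ≤ 3 * x := by
      have : (M : ℝ) < 2 * x + 1 := by rw [hM]; exact Nat.ceil_lt_add_one (by linarith)
      linarith
    have hMM : M₀ ≤ M := by
      have : (M₀ : ℝ) ≤ M := by linarith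
      exact_mod_cast this
    have hMr : (1 : ℝ) ≤ M := by linarith
    have hM0 : (0 : ℝ) < M := by linarith
    have hD : ∀ d ∈ PD α N, 1 ≤ d ∧ d ≤ M := by
      intro d hd
      have h5 := mem_PD.1 hd
      refine ⟨h5.1.one_le, ?_⟩
      have h6 : (d : ℝ) ≤ M := by
        have := h5.2.2
        rw [← hx] at this
        linarith
      exact_mod_cast h6
    -- powers of `M`
    have hpow : ∀ t : ℝ, 0 ≤ t → t ≤ 2 → (M : ℝ) ^ t ≤ (N : ℝ) ^ (δ + α * t) := by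
      intro t ht0 ht2
      calc (M : ℝ) ^ t ≤ (3 * x) ^ t := Real.rpow_le_rpow hM0.le hM2 ht0
        _ = (3 : ℝ) ^ t * x ^ t := Real.mul_rpow (by norm_num) (by linarith)
        _ ≤ (N : ℝ) ^ δ * (N : ℝ) ^ (α * t) := by
            apply mul_le_mul _ _ (by positivity) (by positivity)
            · calc (3 : ℝ) ^ t ≤ (3 : ℝ) ^ (2 : ℝ) :=
                  Real.rpow_le_rpow_of_exponent_le (by norm_num) ht2
                _ = 9 := by norm_num
                _ ≤ _ := h4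
            · rw [hx, ← Real.rpow_mul hN0.le]
        _ = _ := by rw [← Real.rpow_add hN0]
    have hL : (M : ℝ) ^ (1 + δ) ≤ (N : ℝ) := by
      calc (M : ℝ) ^ (1 + δ) ≤ (N : ℝ) ^ (δ + α * (1 + δ)) := hpow _ (by linarith) (by linarith)
        _ ≤ (N : ℝ) ^ (1 : ℝ) := Real.rpow_le_rpow_of_exponent_le hNr (by nlinarith)
        _ = N := Real.rpow_one _
    obtain ⟨m, hm⟩ := covered_as_multiples α N a
    have h5 := hM₀ M hMM (PD α N) hD m N hL
    have hmr : (Set.ncard {y : ℕ | m < y ∧ y ≤ m + N ∧ ∃ d ∈ PD α N, d ∣ y} : ℝ) ≤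
        (coveredCount α N a : ℝ) := by exact_mod_cast hm
    obtain ⟨S, hS⟩ : ∃ S : ℝ, S = coveredCount α N a := ⟨_, rfl⟩
    rw [← hS] at hmr ⊢
    have hS0 : 0 ≤ S := by rw [hS]; exact Nat.cast_nonneg _
    have h6 : (N : ℝ) ^ (α - δ) ≤ (N : ℝ) ^ (δ + α * (1 - θ + δ)) * S := by
      calc (N : ℝ) ^ (α - δ) ≤ ((PD α N).card : ℝ) := h1
        _ ≤ _ := h5
        _ ≤ (M : ℝ) ^ (1 - θ + δ) * S := mul_le_mul_of_nonneg_left hmr (by positivity)
        _ ≤ _ := mul_le_mul_of_nonneg_right (hpow _ (by linarith) (by linarith)) hS0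
    have h7 : (N : ℝ) ^ (δ + α * (1 - θ + δ)) * (N : ℝ) ^ (θ - ε - η) ≤ (N : ℝ) ^ (α - δ) := by
      rw [← Real.rpow_add hN0]
      apply Real.rpow_le_rpow_of_exponent_le hNr
      have h8 : α * (1 - θ + δ) ≤ 1 - θ + δ := by
        have : 0 ≤ 1 - θ + δ := by linarith
        nlinarith
      linarith
    exact le_of_mul_le_mul_left (h7.trans h6) (by positivity)
  obtain ⟨N₀, hN₀⟩ := eventually_atTop.1 hev
  exact ⟨N₀, fun N hN a => hN₀ N hN a⟩

end Pool.Agent.H605.Web
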