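import Pool.Agent.H605.Web.QMult

/-!
# Quantitative equivalence: covering by residue classes for arbitrary sets of moduli
-/

set_option autoImplicit false

open Finset Filter

namespace Pool.Agent.H605.Web

open Pool.Agent.H170R2.PC

/-- covering by one residue class for each element of an arbitrary set of moduli -/
def CoverSets (θ : ℝ) : Prop :=
  ∀ α : ℝ, 0 < α → α < 1 → ∀ ε : ℝ, 0 < ε → ∃ N₀ : ℕ, ∀ N : ℕ, N₀ ≤ N → ∀ D : Finset ℕ,
    (∀ d ∈ D, 1 ≤ d ∧ (d : ℝ) < 2 * (N : ℝ) ^ α) → ∀ a : ℕ → ℤ,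
      (D.card : ℝ) * (N : ℝ) ^ (1 - α - α * (1 - θ) - ε) ≤
        (Set.ncard {n : ℕ | 1 ≤ n ∧ n ≤ N ∧ ∃ d ∈ D, (d : ℤ) ∣ n - a d} : ℝ)

theorem part_le_ncard {N : ℕ} (D : Finset ℕ) (a : ℕ → ℤ) (v : ℕ) (hv : v ≤ N) :
    (Part D a 0 v).card ≤ Set.ncard {n : ℕ | 1 ≤ n ∧ n ≤ N ∧ ∃ d ∈ D, (d : ℤ) ∣ n - a d} := by
  classical
  have e : {n : ℕ | 1 ≤ n ∧ n ≤ N ∧ ∃ d ∈ D, (d : ℤ) ∣ n - a d} =
      (((Icc 1 N).filter fun n : ℕ => ∃ d ∈ D, (d : ℤ) ∣ n - a d : Finset ℕ) : Set ℕ) := by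
    ext n
    simp only [Set.mem_ofPred_eq, coe_filter, mem_Icc]
    tauto
  rw [e, Set.ncard_coe_finset]
  apply Finset.card_le_card_of_injOn Int.toNat
  · intro y hy
    rw [mem_coe, mem_Part] at hy
    obtain ⟨⟨h1, h2⟩, d, hd, h3⟩ := hy
    rw [mem_coe, mem_filter, mem_Icc]
    refine ⟨⟨by omega, by omega⟩, d, hd, ?_⟩
    rwa [Int.toNat_of_nonneg (by omega)]
  · intro y hy z hz hyz
    rw [mem_coe, mem_Part] at hy hz
    have h1 := hy.1.1
    have h2 := hz.1.1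
    omega

theorem coverSets_of_DKsets {θ : ℝ} (hθ0 : 0 ≤ θ) (hθ1 : θ ≤ 1) (h : DKsets θ) :
    CoverSets θ := by
  intro α hα hα1 ε hε
  obtain ⟨δ, hδ⟩ : ∃ δ, δ = min ε (1 - α) / 8 := ⟨_, rfl⟩
  have hmin : 0 < min ε (1 - α) := lt_min hε (by linarith)
  have hδ0 : 0 < δ := by rw [hδ]; positivity
  have hδ1 : 8 * δ ≤ ε := by
    rw [hδ]
    have := min_le_left ε (1 - α)
    linarith
  have hδ2 : 8 * δ ≤ 1 - α := by
    rw [hδ]
    have := min_le_right ε (1 - α)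
    linarith
  obtain ⟨M₀, hM₀⟩ := h δ hδ0
  have hev : ∀ᶠ N : ℕ in atTop, ∀ D : Finset ℕ,
    (∀ d ∈ D, 1 ≤ d ∧ (d : ℝ) < 2 * (N : ℝ) ^ α) → ∀ a : ℕ → ℤ,
      (D.card : ℝ) * (N : ℝ) ^ (1 - α - α * (1 - θ) - ε) ≤
        (Set.ncard {n : ℕ | 1 ≤ n ∧ n ≤ N ∧ ∃ d ∈ D, (d : ℤ) ∣ n - a d} : ℝ) := by
    filter_upwards [ev_pow (M₀ : ℝ) hα, ev_pow 1 hα,
      ev_pow 486 hδ0, eventually_ge_atTop 2] with N h2 h3 h4 hN D hD' a
    have hNr : (1 : ℝ) ≤ N := by exact_mod_cast (by omega : 1 ≤ N)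
    have hN0 : (0 : ℝ) < N := by linarith
    obtain ⟨x, hx⟩ : ∃ x, x = (N : ℝ) ^ α := ⟨_, rfl⟩
    rw [← hx] at h2 h3 hD'
    obtain ⟨M, hM⟩ : ∃ M, M = ⌈2 * x⌉₊ := ⟨_, rfl⟩
    have hM1 : 2 * x ≤ M := by rw [hM]; exact Nat.le_ceil _
    have hM2 : (M : ℝ) ≤ 3 * x := by
      have : (M : ℝ) < 2 * x + 1 := by rw [hM]; exact Nat.ceil_lt_add_one (by linarith)
      linarith
    have hMM : M₀ ≤ M := by
      have : (M₀ : ℝ) ≤ M := by linarith
      exact_mod_cast this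
    have hMr : (1 : ℝ) ≤ M := by linarith
    have hM0 : (0 : ℝ) < M := by linarith
    have hD : ∀ d ∈ D, 1 ≤ d ∧ d ≤ M := by
      intro d hd
      obtain ⟨h5, h6⟩ := hD' d hd
      refine ⟨h5, ?_⟩
      have h7 : (d : ℝ) ≤ M := by linarith
      exact_mod_cast h7
    obtain ⟨K, hK⟩ : ∃ K, K = (M : ℝ) ^ δ := ⟨_, rfl⟩
    have hK1 : 1 ≤ K := by rw [hK]; exact Real.one_le_rpow hMr hδ0.le
    obtain ⟨L, hL⟩ : ∃ L, L = ⌈(K + 1) * M⌉₊ := ⟨_, rfl⟩
    have hL1 : (K + 1) * M ≤ L := by rw [hL]; exact Nat.le_ceil _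
    have hKM : 1 ≤ K * M := by nlinarith
    have hL2 : (L : ℝ) ≤ 3 * (K * M) := by
      have : (L : ℝ) < (K + 1) * M + 1 := by
        rw [hL]; exact Nat.ceil_lt_add_one (by positivity)
      nlinarith
    have hL0 : (0 : ℝ) < L := by nlinarith
    have hL0' : 0 < L := by exact_mod_cast hL0
    -- `K M = M ^ (1 + δ)`
    have hpow : K * M * K ≤ 27 * (N : ℝ) ^ (α + 2 * δ) := by
      have e1 : K * M * K = (M : ℝ) ^ (1 + 2 * δ) := by
        rw [hK]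
        have : (M : ℝ) = (M : ℝ) ^ (1 : ℝ) := (Real.rpow_one _).symm
        conv_lhs => rw [mul_comm _ (M : ℝ), this]
        rw [← Real.rpow_mul hM0.le, ← Real.rpow_add hM0, ← Real.rpow_add hM0]
        congr 1
        ring
      rw [e1]
      calc (M : ℝ) ^ (1 + 2 * δ) ≤ (3 * x) ^ (1 + 2 * δ) :=
            Real.rpow_le_rpow hM0.le hM2 (by linarith)
        _ = (3 : ℝ) ^ (1 + 2 * δ) * x ^ (1 + 2 * δ) :=
            Real.mul_rpow (by norm_num) (by linarith)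
        _ ≤ 27 * (N : ℝ) ^ (α + 2 * δ) := by
            apply mul_le_mul _ _ (by positivity) (by norm_num)
            · calc (3 : ℝ) ^ (1 + 2 * δ) ≤ (3 : ℝ) ^ (3 : ℝ) :=
                  Real.rpow_le_rpow_of_exponent_le (by norm_num) (by linarith)
                _ = 27 := by norm_num
            · rw [hx, ← Real.rpow_mul hN0.le]
              apply Real.rpow_le_rpow_of_exponent_le hNr
              nlinarith
    have hLN : (L : ℝ) ≤ N := by
      calc (L : ℝ) ≤ 3 * (K * M) := hL2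
        _ ≤ 3 * (K * M * K) := by nlinarith
        _ ≤ 81 * (N : ℝ) ^ (α + 2 * δ) := by linarith
        _ ≤ (N : ℝ) ^ δ * (N : ℝ) ^ (α + 2 * δ) :=
            mul_le_mul_of_nonneg_right (by linarith) (by positivity)
        _ = (N : ℝ) ^ (δ + (α + 2 * δ)) := by rw [← Real.rpow_add hN0]
        _ ≤ (N : ℝ) ^ (1 : ℝ) := Real.rpow_le_rpow_of_exponent_le hNr (by linarith)
        _ = N := Real.rpow_one _
    have hLN' : L ≤ N := by exact_mod_cast hLN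
    obtain ⟨H, hH⟩ : ∃ H, H = N / L := ⟨_, rfl⟩
    have hH1 : 1 ≤ H := by rw [hH, Nat.one_le_div_iff hL0']; exact hLN'
    have hH2 : H * L ≤ N := by rw [hH]; exact Nat.div_mul_le_self _ _
    have hH3 : (N : ℝ) ≤ 2 * (H * L) := by
      have h5 : N < (H + 1) * L := by
        rw [hH]
        exact Nat.lt_mul_of_div_lt (Nat.lt_succ_self _) hL0'
      have h6 : (N : ℝ) < (H + 1) * L := by exact_mod_cast h5
      have h7 : (1 : ℝ) * L ≤ H * L :=
        mul_le_mul_of_nonneg_right (by exact_mod_cast hH1) hL0.le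
      linarith
    have hw := windows hD (fun E hE => hM₀ M hMM D hD E hE)
      a L (by rw [← hK]; exact hL1) 0 H
    obtain ⟨C, hC⟩ : ∃ C, C = (M : ℝ) ^ (1 - θ + δ) := ⟨_, rfl⟩
    rw [← hC] at hw
    have hC0 : 0 ≤ C := by rw [hC]; positivity
    have hCK : C = K * (M : ℝ) ^ (1 - θ) := by
      rw [hC, hK, ← Real.rpow_add hM0]
      congr 1
      ring
    have hMθ : (M : ℝ) ^ (1 - θ) ≤ 3 * (N : ℝ) ^ (α * (1 - θ)) := by
      calc (M : ℝ) ^ (1 - θ) ≤ (3 * x) ^ (1 - θ) :=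
            Real.rpow_le_rpow hM0.le hM2 (by linarith)
        _ = (3 : ℝ) ^ (1 - θ) * x ^ (1 - θ) := Real.mul_rpow (by norm_num) (by linarith)
        _ ≤ 3 * (N : ℝ) ^ (α * (1 - θ)) := by
            apply mul_le_mul _ _ (by positivity) (by norm_num)
            · calc (3 : ℝ) ^ (1 - θ) ≤ (3 : ℝ) ^ (1 : ℝ) :=
                  Real.rpow_le_rpow_of_exponent_le (by norm_num) (by linarith)
                _ = 3 := by norm_num
            · rw [hx, ← Real.rpow_mul hN0.le]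
    obtain ⟨S, hS⟩ : ∃ S : ℝ, S =
      (Set.ncard {n : ℕ | 1 ≤ n ∧ n ≤ N ∧ ∃ d ∈ D, (d : ℤ) ∣ n - a d} : ℝ) := ⟨_, rfl⟩
    have h5 : ((Part D a 0 (0 + H * L)).card : ℝ) ≤ S := by
      have := part_le_ncard (N := N) D a (H * L) hH2
      push_cast at this
      rw [zero_add, hS]
      exact_mod_cast this
    rw [← hS]
    have hS0 : 0 ≤ S := by rw [hS]; exact Nat.cast_nonneg _
    have hDc : (0 : ℝ) ≤ D.card := Nat.cast_nonneg _
    have h6 : (H : ℝ) * D.card ≤ C * S := hw.trans (mul_le_mul_of_nonneg_left h5 hC0)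
    obtain ⟨Y, hY⟩ : ∃ Y, Y = (N : ℝ) ^ (α + 2 * δ + α * (1 - θ)) := ⟨_, rfl⟩
    have hY0 : 0 < Y := by rw [hY]; positivity
    have hYe : (N : ℝ) ^ (α + 2 * δ) * (N : ℝ) ^ (α * (1 - θ)) = Y := by
      rw [hY, ← Real.rpow_add hN0]
    have h7 : (N : ℝ) * D.card ≤ 486 * Y * S := by
      calc (N : ℝ) * D.card ≤ 2 * (H * L) * D.card :=
            mul_le_mul_of_nonneg_right hH3 hDc
        _ = 2 * L * (H * D.card) := by ring
        _ ≤ 2 * L * (C * S) := mul_le_mul_of_nonneg_left h6 (by positivity)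
        _ ≤ 2 * (3 * (K * M)) * (C * S) := by
            apply mul_le_mul_of_nonneg_right _ (by positivity)
            linarith
        _ = 6 * ((K * M * K) * (M : ℝ) ^ (1 - θ)) * S := by rw [hCK]; ring
        _ ≤ 6 * ((27 * (N : ℝ) ^ (α + 2 * δ)) * (3 * (N : ℝ) ^ (α * (1 - θ)))) * S := by
            apply mul_le_mul_of_nonneg_right _ hS0
            apply mul_le_mul_of_nonneg_left _ (by norm_num)
            exact mul_le_mul hpow hMθ (by positivity) (by positivity)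
        _ = 486 * ((N : ℝ) ^ (α + 2 * δ) * (N : ℝ) ^ (α * (1 - θ))) * S := by ring
        _ = _ := by rw [hYe]
    have h8 : (N : ℝ) ^ (1 - α - α * (1 - θ) - ε) * (486 * Y) ≤ (N : ℝ) := by
      calc (N : ℝ) ^ (1 - α - α * (1 - θ) - ε) * (486 * Y)
          ≤ (N : ℝ) ^ (1 - α - α * (1 - θ) - ε) * ((N : ℝ) ^ δ * Y) := by
            apply mul_le_mul_of_nonneg_left _ (by positivity)
            exact mul_le_mul_of_nonneg_right h4 hY0.le
        _ = (N : ℝ) ^ (1 - α - α * (1 - θ) - ε + (δ + (α + 2 * δ + α * (1 - θ)))) := by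
            rw [hY, ← Real.rpow_add hN0, ← Real.rpow_add hN0]
        _ ≤ (N : ℝ) ^ (1 : ℝ) := Real.rpow_le_rpow_of_exponent_le hNr (by linarith)
        _ = N := Real.rpow_one _
    have h9 : (D.card : ℝ) * (N : ℝ) ^ (1 - α - α * (1 - θ) - ε) * (486 * Y) ≤
        S * (486 * Y) := by
      calc (D.card : ℝ) * (N : ℝ) ^ (1 - α - α * (1 - θ) - ε) * (486 * Y)
          = D.card * ((N : ℝ) ^ (1 - α - α * (1 - θ) - ε) * (486 * Y)) := by ring
        _ ≤ D.card * N := mul_le_mul_of_nonneg_left h8 hDc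
        _ = N * D.card := mul_comm _ _
        _ ≤ 486 * Y * S := h7
        _ = _ := by ring
    exact le_of_mul_le_mul_right h9 (by positivity)
  obtain ⟨N₀, hN₀⟩ := eventually_atTop.1 hev
  exact ⟨N₀, fun N hN => hN₀ N hN⟩

theorem lower_of_coverSets {θ : ℝ} (h : CoverSets θ) {α : ℝ} (hα : 0 < α) (hα1 : α < 1) :
    LowerExponent α (1 - α * (1 - θ)) := by
  intro ε hε
  obtain ⟨η, hη⟩ : ∃ η, η = min ε 1 / 2 := ⟨_, rfl⟩
  have hmin : 0 < min ε 1 := lt_min hε one_pos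
  have hη0 : 0 < η := by rw [hη]; positivity
  have hη1 : 2 * η ≤ ε := by
    rw [hη]
    have := min_le_left ε 1
    linarith
  have hη2 : 2 * η ≤ 1 := by
    rw [hη]
    have := min_le_right ε 1
    linarith
  obtain ⟨N₀, hN₀⟩ := h α hα hα1 η hη0
  obtain ⟨N₁, hN₁⟩ := eventually_atTop.1 (ev_card hα hα1.le hη0 (by linarith))
  refine ⟨max (max N₀ N₁) 1, fun N hN a => ?_⟩
  have h1 : N₀ ≤ N := le_trans (le_trans (le_max_left _ _) (le_max_left _ _)) hN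
  have h2 : N₁ ≤ N := le_trans (le_trans (le_max_right _ _) (le_max_left _ _)) hN
  have h3 : 1 ≤ N := le_trans (le_max_right _ _) hN
  have hNr : (1 : ℝ) ≤ N := by exact_mod_cast h3
  have hN0 : (0 : ℝ) < N := by linarith
  have h4 := hN₀ N h1 (PD α N) (fun d hd => ⟨(mem_PD.1 hd).1.one_le, (mem_PD.1 hd).2.2⟩)
    (fun p => ((a p).val : ℤ))
  have h5 := hN₁ N h2
  have h6 : Set.ncard {n : ℕ | 1 ≤ n ∧ n ≤ N ∧ ∃ d ∈ PD α N,
      (d : ℤ) ∣ n - (fun p : ℕ => ((a p).val : ℤ)) d} ≤ coveredCount α N a := by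
    apply Set.ncard_le_ncard
    · rintro n ⟨h7, h8, p, hp, h9⟩
      refine ⟨h7, h8, p, mem_PD.1 hp, ?_⟩
      have hpp : p.Prime := (mem_PD.1 hp).1
      have : NeZero p := ⟨hpp.ne_zero⟩
      have h10 : ((n : ℤ) : ZMod p) = (((a p).val : ℤ) : ZMod p) := by
        rw [← sub_eq_zero, ← Int.cast_sub, ZMod.intCast_zmod_eq_zero_iff_dvd]
        exact h9
      rw [Int.cast_natCast, Int.cast_natCast, ZMod.natCast_val, ZMod.cast_id', id] at h10
      exact h10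
    · exact (Set.finite_Icc 1 N).subset fun n hn => ⟨hn.1, hn.2.1⟩
  have h7 : (Set.ncard {n : ℕ | 1 ≤ n ∧ n ≤ N ∧ ∃ d ∈ PD α N,
      (d : ℤ) ∣ n - (fun p : ℕ => ((a p).val : ℤ)) d} : ℝ) ≤ coveredCount α N a := by
    exact_mod_cast h6
  refine le_trans ?_ (h4.trans h7)
  calc (N : ℝ) ^ (1 - α * (1 - θ) - ε) ≤
        (N : ℝ) ^ ((α - η) + (1 - α - α * (1 - θ) - η)) :=
        Real.rpow_le_rpow_of_exponent_le hNr (by linarith)
    _ = (N : ℝ) ^ (α - η) * (N : ℝ) ^ (1 - α - α * (1 - θ) - η) := Real.rpow_add hN0 _ _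
    _ ≤ _ := mul_le_mul_of_nonneg_right h5 (by positivity)

end Pool.Agent.H605.Web
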