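import Pool.Agent.H605.Web.Theta

/-!
# Quantitative equivalence: the exponent of the covering problem and of the progressions
-/

set_option autoImplicit false

open Finset Filter N047c7463

namespace Pool.Agent.H605.Web

open Pool.Agent.H170R2.PC

theorem lowerExponent_of_DKsets {θ : ℝ} (hθ0 : 0 ≤ θ) (hθ1 : θ ≤ 1) (h : DKsets θ) {α : ℝ}
    (hα : 0 < α) (hα1 : α < 1) : LowerExponent α (1 - α * (1 - θ)) := by
  intro ε hε
  obtain ⟨δ, hδ⟩ : ∃ δ, δ = min ε (1 - α) / 8 := ⟨_, rfl⟩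
  have hmin : 0 < min ε (1 - α) := lt_min hε (by linarith)
  have hδ0 : 0 < δ := by rw [hδ]; positivity
  have hδ1 : 8 * δ ≤ ε := by
    rw [hδ]
    have := min_le_left ε (1 - α)
    linarith
  have hδ2 : 8 * δ ≤ 1 - α := by
    rw [hδ]
    have := min_le_right ε (1 - α)
    linarith
  obtain ⟨M₀, hM₀⟩ := h δ hδ0
  have hev : ∀ᶠ N : ℕ in atTop, (N : ℝ) ^ (1 - α * (1 - θ) - ε) ≤ (N : ℝ) ^ (1 - α * (1 - θ) - ε) ∧
      ∀ a : (p : ℕ) → ZMod p, (N : ℝ) ^ (1 - α * (1 - θ) - ε) ≤ (coveredCount α N a : ℝ) := by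
    filter_upwards [ev_card hα hα1.le hδ0 (by linarith), ev_pow (M₀ : ℝ) hα, ev_pow 1 hα,
      ev_pow 486 hδ0, eventually_ge_atTop 2] with N h1 h2 h3 h4 hN
    refine ⟨le_rfl, fun a => ?_⟩
    have hNr : (1 : ℝ) ≤ N := by exact_mod_cast (by omega : 1 ≤ N)
    have hN0 : (0 : ℝ) < N := by linarith
    obtain ⟨x, hx⟩ : ∃ x, x = (N : ℝ) ^ α := ⟨_, rfl⟩
    rw [← hx] at h2 h3
    obtain ⟨M, hM⟩ : ∃ M, M = ⌈2 * x⌉₊ := ⟨_, rfl⟩
    have hM1 : 2 * x ≤ M := by rw [hM]; exact Nat.le_ceil _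
    have hM2 : (M : ℝ) ≤ 3 * x := by
      have : (M : ℝ) < 2 * x + 1 := by rw [hM]; exact Nat.ceil_lt_add_one (by linarith)
      linarith
    have hMM : M₀ ≤ M := by
      have : (M₀ : ℝ) ≤ M := by linarith
      exact_mod_cast this
    have hMr : (1 : ℝ) ≤ M := by linarith
    have hM0 : (0 : ℝ) < M := by linarith
    have hD : ∀ d ∈ PD α N, 1 ≤ d ∧ d ≤ M := by
      intro d hd
      have h5 := mem_PD.1 hd
      refine ⟨h5.1.one_le, ?_⟩
      have h6 : (d : ℝ) ≤ M := by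
        have := h5.2.2
        rw [← hx] at this
        linarith
      exact_mod_cast h6
    obtain ⟨K, hK⟩ : ∃ K, K = (M : ℝ) ^ δ := ⟨_, rfl⟩
    have hK1 : 1 ≤ K := by rw [hK]; exact Real.one_le_rpow hMr hδ0.le
    obtain ⟨L, hL⟩ : ∃ L, L = ⌈(K + 1) * M⌉₊ := ⟨_, rfl⟩
    have hL1 : (K + 1) * M ≤ L := by rw [hL]; exact Nat.le_ceil _
    have hKM : 1 ≤ K * M := by nlinarith
    have hL2 : (L : ℝ) ≤ 3 * (K * M) := by
      have : (L : ℝ) < (K + 1) * M + 1 := by
        rw [hL]; exact Nat.ceil_lt_add_one (by positivity)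
      nlinarith
    have hL0 : (0 : ℝ) < L := by nlinarith
    have hL0' : 0 < L := by exact_mod_cast hL0
    -- `K M = M ^ (1 + δ)`
    have hpow : K * M * K ≤ 27 * (N : ℝ) ^ (α + 2 * δ) := by
      have e1 : K * M * K = (M : ℝ) ^ (1 + 2 * δ) := by
        rw [hK]
        have : (M : ℝ) = (M : ℝ) ^ (1 : ℝ) := (Real.rpow_one _).symm
        conv_lhs => rw [mul_comm _ (M : ℝ), this]
        rw [← Real.rpow_mul hM0.le, ← Real.rpow_add hM0, ← Real.rpow_add hM0]
        congr 1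
        ring
      rw [e1]
      calc (M : ℝ) ^ (1 + 2 * δ) ≤ (3 * x) ^ (1 + 2 * δ) :=
            Real.rpow_le_rpow hM0.le hM2 (by linarith)
        _ = (3 : ℝ) ^ (1 + 2 * δ) * x ^ (1 + 2 * δ) :=
            Real.mul_rpow (by norm_num) (by linarith)
        _ ≤ 27 * (N : ℝ) ^ (α + 2 * δ) := by
            apply mul_le_mul _ _ (by positivity) (by norm_num)
            · calc (3 : ℝ) ^ (1 + 2 * δ) ≤ (3 : ℝ) ^ (3 : ℝ) :=
                  Real.rpow_le_rpow_of_exponent_le (by norm_num) (by linarith)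
                _ = 27 := by norm_num
            · rw [hx, ← Real.rpow_mul hN0.le]
              apply Real.rpow_le_rpow_of_exponent_le hNr
              nlinarith
    have hLN : (L : ℝ) ≤ N := by
      calc (L : ℝ) ≤ 3 * (K * M) := hL2
        _ ≤ 3 * (K * M * K) := by nlinarith
        _ ≤ 81 * (N : ℝ) ^ (α + 2 * δ) := by linarith
        _ ≤ (N : ℝ) ^ δ * (N : ℝ) ^ (α + 2 * δ) :=
            mul_le_mul_of_nonneg_right (by linarith) (by positivity)
        _ = (N : ℝ) ^ (δ + (α + 2 * δ)) := by rw [← Real.rpow_add hN0]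
        _ ≤ (N : ℝ) ^ (1 : ℝ) := Real.rpow_le_rpow_of_exponent_le hNr (by linarith)
        _ = N := Real.rpow_one _
    have hLN' : L ≤ N := by exact_mod_cast hLN
    obtain ⟨H, hH⟩ : ∃ H, H = N / L := ⟨_, rfl⟩
    have hH1 : 1 ≤ H := by rw [hH, Nat.one_le_div_iff hL0']; exact hLN'
    have hH2 : H * L ≤ N := by rw [hH]; exact Nat.div_mul_le_self _ _
    have hH3 : (N : ℝ) ≤ 2 * (H * L) := by
      have h5 : N < (H + 1) * L := by
        rw [hH]
        exact Nat.lt_mul_of_div_lt (Nat.lt_succ_self _) hL0'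
      have h6 : (N : ℝ) < (H + 1) * L := by exact_mod_cast h5
      have h7 : (1 : ℝ) * L ≤ H * L :=
        mul_le_mul_of_nonneg_right (by exact_mod_cast hH1) hL0.le
      linarith
    have hw := windows hD (fun E hE => hM₀ M hMM (PD α N) hD E hE)
      (fun p => ((a p).val : ℤ)) L (by rw [← hK]; exact hL1) 0 H
    obtain ⟨C, hC⟩ : ∃ C, C = (M : ℝ) ^ (1 - θ + δ) := ⟨_, rfl⟩
    rw [← hC] at hw
    have hC0 : 0 ≤ C := by rw [hC]; positivity
    have hCK : C = K * (M : ℝ) ^ (1 - θ) := by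
      rw [hC, hK, ← Real.rpow_add hM0]
      congr 1
      ring
    have hMθ : (M : ℝ) ^ (1 - θ) ≤ 3 * (N : ℝ) ^ (α * (1 - θ)) := by
      calc (M : ℝ) ^ (1 - θ) ≤ (3 * x) ^ (1 - θ) :=
            Real.rpow_le_rpow hM0.le hM2 (by linarith)
        _ = (3 : ℝ) ^ (1 - θ) * x ^ (1 - θ) := Real.mul_rpow (by norm_num) (by linarith)
        _ ≤ 3 * (N : ℝ) ^ (α * (1 - θ)) := by
            apply mul_le_mul _ _ (by positivity) (by norm_num)
            · calc (3 : ℝ) ^ (1 - θ) ≤ (3 : ℝ) ^ (1 : ℝ) :=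
                  Real.rpow_le_rpow_of_exponent_le (by norm_num) (by linarith)
                _ = 3 := by norm_num
            · rw [hx, ← Real.rpow_mul hN0.le]
    have h5 : ((Part (PD α N) (fun p => ((a p).val : ℤ)) 0 (0 + H * L)).card : ℝ) ≤
        coveredCount α N a := by
      have := part_le_covered (α := α) (N := N) a (H * L) hH2
      push_cast at this
      rw [zero_add]
      exact_mod_cast this
    obtain ⟨S, hS⟩ : ∃ S : ℝ, S = coveredCount α N a := ⟨_, rfl⟩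
    rw [← hS] at h5 ⊢
    have hS0 : 0 ≤ S := by rw [hS]; exact Nat.cast_nonneg _
    have h6 : (H : ℝ) * (N : ℝ) ^ (α - δ) ≤ C * S := by
      calc (H : ℝ) * (N : ℝ) ^ (α - δ) ≤ H * (PD α N).card :=
            mul_le_mul_of_nonneg_left h1 (Nat.cast_nonneg _)
        _ ≤ _ := hw
        _ ≤ C * S := mul_le_mul_of_nonneg_left h5 hC0
    obtain ⟨Y, hY⟩ : ∃ Y, Y = (N : ℝ) ^ (α + 2 * δ + α * (1 - θ)) := ⟨_, rfl⟩
    have hY0 : 0 < Y := by rw [hY]; positivity
    have hYe : (N : ℝ) ^ (α + 2 * δ) * (N : ℝ) ^ (α * (1 - θ)) = Y := by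
      rw [hY, ← Real.rpow_add hN0]
    have h7 : (N : ℝ) * (N : ℝ) ^ (α - δ) ≤ 486 * Y * S := by
      calc (N : ℝ) * (N : ℝ) ^ (α - δ) ≤ 2 * (H * L) * (N : ℝ) ^ (α - δ) :=
            mul_le_mul_of_nonneg_right hH3 (by positivity)
        _ = 2 * L * (H * (N : ℝ) ^ (α - δ)) := by ring
        _ ≤ 2 * L * (C * S) := mul_le_mul_of_nonneg_left h6 (by positivity)
        _ ≤ 2 * (3 * (K * M)) * (C * S) := by
            apply mul_le_mul_of_nonneg_right _ (by positivity)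
            linarith
        _ = 6 * ((K * M * K) * (M : ℝ) ^ (1 - θ)) * S := by rw [hCK]; ring
        _ ≤ 6 * ((27 * (N : ℝ) ^ (α + 2 * δ)) * (3 * (N : ℝ) ^ (α * (1 - θ)))) * S := by
            apply mul_le_mul_of_nonneg_right _ hS0
            apply mul_le_mul_of_nonneg_left _ (by norm_num)
            exact mul_le_mul hpow hMθ (by positivity) (by positivity)
        _ = 486 * ((N : ℝ) ^ (α + 2 * δ) * (N : ℝ) ^ (α * (1 - θ))) * S := by ring
        _ = _ := by rw [hYe]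
    have h8 : (N : ℝ) ^ (1 - α * (1 - θ) - ε) * (486 * Y) ≤ (N : ℝ) * (N : ℝ) ^ (α - δ) := by
      calc (N : ℝ) ^ (1 - α * (1 - θ) - ε) * (486 * Y)
          ≤ (N : ℝ) ^ (1 - α * (1 - θ) - ε) * ((N : ℝ) ^ δ * Y) := by
            apply mul_le_mul_of_nonneg_left _ (by positivity)
            exact mul_le_mul_of_nonneg_right h4 hY0.le
        _ = (N : ℝ) ^ (1 - α * (1 - θ) - ε + (δ + (α + 2 * δ + α * (1 - θ)))) := by
            rw [hY, ← Real.rpow_add hN0, ← Real.rpow_add hN0]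
        _ ≤ (N : ℝ) ^ (1 + (α - δ)) := Real.rpow_le_rpow_of_exponent_le hNr (by linarith)
        _ = _ := by rw [Real.rpow_add hN0, Real.rpow_one]
    have h9 : (N : ℝ) ^ (1 - α * (1 - θ) - ε) * (486 * Y) ≤ S * (486 * Y) := by linarith
    exact le_of_mul_le_mul_right h9 (by positivity)
  obtain ⟨N₀, hN₀⟩ := eventually_atTop.1 hev
  exact ⟨N₀, fun N hN a => (hN₀ N hN).2 a⟩

/-- `f(n, m) ≤ n ^ (2 - θ + η)` for all large `n` -/
theorem erdos_of_DKsets {θ : ℝ} (hθ1 : θ ≤ 1) (h : DKsets θ) {η : ℝ} (hη : 0 < η) :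
    ∀ᶠ n : ℕ in atTop, ∀ m : ℕ, ∃ L : ℕ, HasDivisibleDistinctTuple n m L ∧
      (L : ℝ) ≤ (n : ℝ) ^ (2 - θ + η) := by
  classical
  obtain ⟨δ, hδ⟩ : ∃ δ, δ = min η 1 / 8 := ⟨_, rfl⟩
  have hmin : 0 < min η 1 := lt_min hη one_pos
  have hδ0 : 0 < δ := by rw [hδ]; positivity
  have hδ1 : 8 * δ ≤ η := by
    rw [hδ]
    have := min_le_left η 1
    linarith
  obtain ⟨M₀, hM₀⟩ := h δ hδ0
  filter_upwards [eventually_ge_atTop M₀, eventually_ge_atTop 1, ev_pow 7 hδ0] with n h1 h2 h3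
  intro m
  have hn : (1 : ℝ) ≤ n := by exact_mod_cast h2
  have hn0 : (0 : ℝ) < n := by linarith
  obtain ⟨K, hK⟩ : ∃ K, K = (n : ℝ) ^ δ := ⟨_, rfl⟩
  have hK1 : 1 ≤ K := by rw [hK]; exact Real.one_le_rpow hn hδ0.le
  obtain ⟨Λ, hΛ⟩ : ∃ Λ, Λ = ⌈(K + 1) * n⌉₊ := ⟨_, rfl⟩
  have hΛ1 : (K + 1) * n ≤ Λ := by rw [hΛ]; exact Nat.le_ceil _
  have hKn : 1 ≤ K * n := by nlinarith
  have hΛ2 : (Λ : ℝ) ≤ 3 * (K * n) := by
    have : (Λ : ℝ) < (K + 1) * n + 1 := by rw [hΛ]; exact Nat.ceil_lt_add_one (by positivity)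
    nlinarith
  obtain ⟨C, hC⟩ : ∃ C, C = (n : ℝ) ^ (1 - θ + δ) := ⟨_, rfl⟩
  have hC1 : 1 ≤ C := by rw [hC]; exact Real.one_le_rpow hn (by linarith)
  obtain ⟨H, hH⟩ : ∃ H, H = ⌈C⌉₊ := ⟨_, rfl⟩
  have hH1 : C ≤ H := by rw [hH]; exact Nat.le_ceil _
  have hH2 : (H : ℝ) ≤ 2 * C := by
    have : (H : ℝ) < C + 1 := by rw [hH]; exact Nat.ceil_lt_add_one (by positivity)
    linarith
  refine ⟨H * Λ + 1, ?_, ?_⟩
  · obtain ⟨t, ht⟩ : ∃ t : Fin n → Finset ℕ, t = fun i =>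
      (Ioc m (m + H * Λ)).filter fun y => (i.val + 1) ∣ y := ⟨_, rfl⟩
    have hall : ∀ s : Finset (Fin n), s.card ≤ (s.biUnion t).card := by
      intro s
      obtain ⟨D, hDd⟩ : ∃ D, D = s.image (fun i : Fin n => i.val + 1) := ⟨_, rfl⟩
      have hDc : D.card = s.card := by
        rw [hDd, Finset.card_image_of_injective]
        intro i j hij
        simp only at hij
        exact Fin.ext (by omega)
      have hD : ∀ d ∈ D, 1 ≤ d ∧ d ≤ n := by
        intro d hd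
        rw [hDd, mem_image] at hd
        obtain ⟨i, -, rfl⟩ := hd
        have := i.isLt
        omega
      have hw := windows hD (fun E hE => hM₀ n h1 D hD E hE) (fun _ => 0) Λ
        (by rw [← hK]; exact hΛ1) m H
      rw [← hC, hDc] at hw
      have h4 : (Part D (fun _ => 0) (m : ℤ) (m + H * Λ)).card ≤ (s.biUnion t).card := by
        apply Finset.card_le_card_of_injOn Int.toNat
        · intro y hy
          rw [mem_coe, mem_Part] at hy
          obtain ⟨⟨h5, h6⟩, d, hd, h7⟩ := hy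
          rw [hDd, mem_image] at hd
          obtain ⟨i, hi, rfl⟩ := hd
          rw [mem_coe, mem_biUnion]
          refine ⟨i, hi, ?_⟩
          rw [ht, mem_filter, mem_Ioc]
          refine ⟨⟨by omega, ?_⟩, ?_⟩
          · have h8 : (y.toNat : ℤ) = y := Int.toNat_of_nonneg (by omega)
            have h9 : (y.toNat : ℤ) ≤ ((m + H * Λ : ℕ) : ℤ) := by
              rw [h8]; push_cast; exact h6
            exact_mod_cast h9
          · rw [sub_zero] at h7
            have h8 : (y.toNat : ℤ) = y := Int.toNat_of_nonneg (by omega)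
            rw [← h8] at h7
            exact_mod_cast h7
        · intro y hy z hz hyz
          rw [mem_coe, mem_Part] at hy hz
          have h5 := hy.1.1
          have h6 := hz.1.1
          omega
      have h10 : ((Part D (fun _ => 0) (m : ℤ) (m + H * Λ)).card : ℝ) ≤
          ((s.biUnion t).card : ℝ) := by exact_mod_cast h4
      have h11 : (s.card : ℝ) ≤ ((s.biUnion t).card : ℝ) := by
        have h12 : C * s.card ≤ H * s.card :=
          mul_le_mul_of_nonneg_right hH1 (Nat.cast_nonneg _)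
        have h13 : C * s.card ≤ C * ((s.biUnion t).card : ℝ) :=
          h12.trans (hw.trans (mul_le_mul_of_nonneg_left h10 (by linarith)))
        exact le_of_mul_le_mul_left h13 (by linarith)
      exact_mod_cast h11
    obtain ⟨f, hf1, hf2⟩ := (Finset.all_card_le_biUnion_card_iff_exists_injective t).1 hall
    refine ⟨f, hf1, fun i => ?_⟩
    have h4 := hf2 i
    rw [ht, mem_filter, mem_Ioc] at h4
    exact ⟨h4.1.1, by omega, h4.2⟩
  · push_cast
    have h4 : (H : ℝ) * Λ ≤ 2 * C * (3 * (K * n)) :=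
      mul_le_mul hH2 hΛ2 (Nat.cast_nonneg _) (by positivity)
    have h5 : 1 ≤ C * (K * n) := by nlinarith
    have h6 : C * (K * n) = (n : ℝ) ^ (2 - θ + 2 * δ) := by
      rw [hC, hK, ← Real.rpow_add_one hn0.ne', ← Real.rpow_add hn0]
      congr 1
      ring
    calc (H : ℝ) * Λ + 1 ≤ 7 * (C * (K * n)) := by linarith
      _ ≤ (n : ℝ) ^ δ * (n : ℝ) ^ (2 - θ + 2 * δ) := by
          rw [h6]
          exact mul_le_mul_of_nonneg_right h3 (by positivity)
      _ = (n : ℝ) ^ (δ + (2 - θ + 2 * δ)) := by rw [← Real.rpow_add hn0]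
      _ ≤ _ := Real.rpow_le_rpow_of_exponent_le hn (by linarith)

theorem lowerExponent_mono {α c c' : ℝ} (h : LowerExponent α c) (hc : c' ≤ c) :
    LowerExponent α c' := by
  intro ε hε
  obtain ⟨N₀, hN₀⟩ := h ε hε
  refine ⟨max N₀ 1, fun N hN a => ?_⟩
  have h1 : (1 : ℝ) ≤ N := by exact_mod_cast (le_max_right N₀ 1).trans hN
  exact (Real.rpow_le_rpow_of_exponent_le h1 (by linarith)).trans
    (hN₀ N ((le_max_left N₀ 1).trans hN) a)

theorem nearOneTheta_of_lower {θ : ℝ} (hθ1 : θ ≤ 1)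
    (h : ∀ α : ℝ, 0 < α → α < 1 → LowerExponent α (1 - α * (1 - θ))) : NearOneTheta θ := by
  intro ε hε
  have h2 : max (1 / 2 : ℝ) (1 - ε / 2) < 1 := max_lt (by norm_num) (by linarith)
  have h1 : (0 : ℝ) < max (1 / 2 : ℝ) (1 - ε / 2) :=
    lt_of_lt_of_le (by norm_num) (le_max_left _ _)
  refine ⟨max (1 / 2) (1 - ε / 2), lt_of_lt_of_le (by linarith) (le_max_right _ _), h2, ?_⟩
  refine lowerExponent_mono (h _ h1 h2) ?_
  nlinarith

end Pool.Agent.H605.Web
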