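import Pool.Agent.H605.Web.Impl3

/-!
# Quantitative forms, with an exponent `θ`
-/

set_option autoImplicit false

open Finset Filter

namespace Pool.Agent.H605.Web

open Pool.Agent.H170R2.PC

/-- all common differences, exponent `θ` -/
def DKfull (θ : ℝ) : Prop :=
  ∀ ε : ℝ, 0 < ε → ∃ N₀ : ℕ, ∀ N : ℕ, N₀ ≤ N → ∀ E : Finset ℤ,
    (∀ d : ℕ, 1 ≤ d → d ≤ N → HasAP E ((N : ℝ) ^ ε) d) → (N : ℝ) ^ (θ - ε) ≤ (E.card : ℝ)

/-- arbitrary sets of common differences, exponent `θ` -/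
def DKsets (θ : ℝ) : Prop :=
  ∀ ε : ℝ, 0 < ε → ∃ N₀ : ℕ, ∀ N : ℕ, N₀ ≤ N → ∀ D : Finset ℕ, (∀ d ∈ D, 1 ≤ d ∧ d ≤ N) →
    ∀ E : Finset ℤ, (∀ d ∈ D, HasAP E ((N : ℝ) ^ ε) d) →
      (D.card : ℝ) ≤ (N : ℝ) ^ (1 - θ + ε) * (E.card : ℝ)

theorem DKsets_of_DKfull {θ : ℝ} (h : DKfull θ) : DKsets θ := by
  intro ε hε
  obtain ⟨δ, hδ⟩ : ∃ δ, δ = ε / 4 := ⟨_, rfl⟩
  have hδ0 : 0 < δ := by rw [hδ]; positivity
  obtain ⟨N₁, hN₁⟩ := h δ hδ0
  obtain ⟨N₂, hN₂⟩ := eventually_atTop.1 (ev_log 4 (show 0 < 2 * δ by positivity))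
  refine ⟨max (max N₁ N₂) 1, fun N hN D hD E hE => ?_⟩
  have hN1 : N₁ ≤ N := le_trans (le_trans (le_max_left _ _) (le_max_left _ _)) hN
  have hN2 : N₂ ≤ N := le_trans (le_trans (le_max_right _ _) (le_max_left _ _)) hN
  have hN3 : 1 ≤ N := le_trans (le_max_right _ _) hN
  have hNr : (1 : ℝ) ≤ N := by exact_mod_cast hN3
  have hN0 : (0 : ℝ) < N := by linarith
  have hlog := hN₂ N hN2
  rcases D.eq_empty_or_nonempty with rfl | hne
  · simp only [card_empty, Nat.cast_zero]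
    positivity
  have hDpos : (0 : ℝ) < D.card := by exact_mod_cast Finset.card_pos.2 hne
  have hDN : (D.card : ℝ) ≤ N := by
    have : D ⊆ Icc 1 N := fun d hd => mem_Icc.2 (hD d hd)
    have := Finset.card_le_card this
    rw [Nat.card_Icc, Nat.add_sub_cancel] at this
    exact_mod_cast this
  obtain ⟨T, hT1, hT2⟩ := translates D hD hne
  have hK : (1 : ℝ) ≤ (N : ℝ) ^ δ := Real.one_le_rpow hNr hδ0.le
  have hKε : (N : ℝ) ^ δ ≤ (N : ℝ) ^ ε := Real.rpow_le_rpow_of_exponent_le hNr (by linarith)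
  obtain ⟨E', hE1, hE2⟩ := fill E D T ((N : ℝ) ^ δ) (by positivity)
    (fun d hd => (hE d hd).mono hKε)
  have h1 := hN₁ N hN1 E' (fun d hd1 hd2 => hE2 d (hT2 d hd1 hd2))
  have hlog0 : 0 ≤ Real.log N := Real.log_nonneg hNr
  have hE0 : (0 : ℝ) ≤ E.card := Nat.cast_nonneg _
  have h1' := h1.trans hE1
  clear hE1 h1 hN₁ hN₂ hE2 hE
  generalize (E.card : ℝ) = e at *
  generalize (D.card : ℝ) = dc at *
  generalize (T.card : ℝ) = tc at *
  have h2 : tc * dc ≤ 2 * N * (Real.log N + 1) := by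
    calc tc * dc ≤ (2 * N / dc * Real.log N + 1) * dc :=
          mul_le_mul_of_nonneg_right hT1 hDpos.le
      _ = 2 * N * Real.log N + dc := by field_simp
      _ ≤ _ := by nlinarith
  have h3 : (N : ℝ) ^ (θ - δ) * dc ≤ (N : ℝ) ^ (θ - δ) * ((N : ℝ) ^ (1 - θ + ε) * e) := by
    have e2 : (N : ℝ) ^ (θ - δ) * (N : ℝ) ^ (1 - θ + ε) =
        N * ((N : ℝ) ^ δ * (N : ℝ) ^ (2 * δ)) := by
      have : (N : ℝ) = (N : ℝ) ^ (1 : ℝ) := (Real.rpow_one _).symm
      conv_rhs => rw [this]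
      rw [← Real.rpow_mul hN0.le, ← Real.rpow_mul hN0.le, ← Real.rpow_add hN0,
        ← Real.rpow_add hN0, ← Real.rpow_add hN0]
      congr 1
      linarith
    calc (N : ℝ) ^ (θ - δ) * dc = dc * (N : ℝ) ^ (θ - δ) := by ring
      _ ≤ dc * (tc * ((N : ℝ) ^ δ + 1) * e) := mul_le_mul_of_nonneg_left h1' hDpos.le
      _ = (tc * dc) * (((N : ℝ) ^ δ + 1) * e) := by ring
      _ ≤ (2 * N * (Real.log N + 1)) * (((N : ℝ) ^ δ + 1) * e) :=
          mul_le_mul_of_nonneg_right h2 (by positivity)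
      _ ≤ (2 * N * (Real.log N + 1)) * ((2 * (N : ℝ) ^ δ) * e) := by
          apply mul_le_mul_of_nonneg_left _ (by positivity)
          apply mul_le_mul_of_nonneg_right _ hE0
          linarith
      _ = N * ((N : ℝ) ^ δ * (4 * (Real.log N + 1))) * e := by ring
      _ ≤ N * ((N : ℝ) ^ δ * (N : ℝ) ^ (2 * δ)) * e := by
          apply mul_le_mul_of_nonneg_right _ hE0
          apply mul_le_mul_of_nonneg_left _ hN0.le
          apply mul_le_mul_of_nonneg_left hlog (by positivity)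
      _ = _ := by rw [← e2]; ring
  exact le_of_mul_le_mul_left h3 (by positivity)

/-- exponents of the covering problem for `α` near `1` -/
def NearOneTheta (θ : ℝ) : Prop :=
  ∀ ε : ℝ, 0 < ε → ∃ α : ℝ, 1 - ε < α ∧ α < 1 ∧ LowerExponent α (θ - ε)

theorem DKfull_of_nearOne {θ : ℝ} (hθ0 : 0 < θ) (hθ1 : θ ≤ 1) (h : NearOneTheta θ) :
    DKfull θ := by
  intro ε hε
  obtain ⟨δ, hδ⟩ : ∃ δ, δ = min ε θ / 8 := ⟨_, rfl⟩
  have hmin : 0 < min ε θ := lt_min hε hθ0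
  have hδ0 : 0 < δ := by rw [hδ]; positivity
  have hδ1 : 8 * δ ≤ ε := by
    rw [hδ]
    have := min_le_left ε θ
    linarith
  have hδ2 : 8 * δ ≤ θ := by
    rw [hδ]
    have := min_le_right ε θ
    linarith
  obtain ⟨α, hα1, hα2, hα3⟩ := h δ hδ0
  obtain ⟨N₁, hN₁⟩ := hα3 δ hδ0
  obtain ⟨N₂, hN₂⟩ := eventually_atTop.1 (ev_pow 4 hδ0)
  refine ⟨max (max (2 * N₁) N₂) 2, fun N hN E hE => ?_⟩
  have hN1 : 2 * N₁ ≤ N := le_trans (le_trans (le_max_left _ _) (le_max_left _ _)) hN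
  have hN2 : N₂ ≤ N := le_trans (le_trans (le_max_right _ _) (le_max_left _ _)) hN
  have hN3 : 2 ≤ N := le_trans (le_max_right _ _) hN
  have hNr : (1 : ℝ) ≤ N := by exact_mod_cast (by omega : 1 ≤ N)
  have hN0 : (0 : ℝ) < N := by linarith
  obtain ⟨n, hn⟩ : ∃ n, n = N / 2 := ⟨_, rfl⟩
  have hn1 : 1 ≤ n := by omega
  have hn2 : N₁ ≤ n := by omega
  have hn3 : 2 * n ≤ N := by omega
  have hn4 : N ≤ 4 * n := by omega
  have hnr : (1 : ℝ) ≤ n := by exact_mod_cast hn1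
  have hn3r : 2 * (n : ℝ) ≤ N := by exact_mod_cast hn3
  have hn4r : (N : ℝ) ≤ 4 * n := by exact_mod_cast hn4
  have h4 := hN₂ N hN2
  obtain ⟨a, ha⟩ := covered_le (α := α) hn1 E ((N : ℝ) ^ ε) (fun p hp => by
    have h5 : (p : ℝ) ≤ N := by
      have h6 : (n : ℝ) ^ α ≤ n := by
        calc (n : ℝ) ^ α ≤ (n : ℝ) ^ (1 : ℝ) := Real.rpow_le_rpow_of_exponent_le hnr hα2.le
          _ = n := Real.rpow_one _
      linarith [hp.2.2]
    refine ⟨hE p hp.1.one_le (by exact_mod_cast h5), ?_⟩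
    calc 2 * (n : ℝ) = 2 * ((n : ℝ) ^ (1 - α) * (n : ℝ) ^ α) := by
          rw [← Real.rpow_add (by linarith)]
          simp
      _ ≤ 2 * ((N : ℝ) ^ δ * (n : ℝ) ^ α) := by
          apply mul_le_mul_of_nonneg_left _ (by norm_num)
          apply mul_le_mul_of_nonneg_right _ (by positivity)
          calc (n : ℝ) ^ (1 - α) ≤ (n : ℝ) ^ δ :=
                Real.rpow_le_rpow_of_exponent_le hnr (by linarith)
            _ ≤ (N : ℝ) ^ δ := Real.rpow_le_rpow (by linarith) (by linarith) hδ0.le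
      _ ≤ (N : ℝ) ^ δ * ((N : ℝ) ^ δ * (n : ℝ) ^ α) := by
          apply mul_le_mul_of_nonneg_right (by linarith) (by positivity)
      _ = (N : ℝ) ^ (2 * δ) * (n : ℝ) ^ α := by
          rw [← mul_assoc, ← Real.rpow_add hN0]
          congr 2
          ring
      _ ≤ (N : ℝ) ^ ε * p := by
          apply mul_le_mul _ hp.2.1 (by positivity) (by positivity)
          exact Real.rpow_le_rpow_of_exponent_le hNr (by linarith))
  have h5 := hN₁ n hn2 a
  have h6 : (coveredCount α n a : ℝ) ≤ E.card := by exact_mod_cast ha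
  refine le_trans ?_ (h5.trans h6)
  have e1 : θ - δ - δ = θ - 2 * δ := by ring
  rw [e1]
  calc (N : ℝ) ^ (θ - ε) ≤ (N : ℝ) ^ (θ - 3 * δ) :=
        Real.rpow_le_rpow_of_exponent_le hNr (by linarith)
    _ ≤ (n : ℝ) ^ (θ - 2 * δ) := by
        have h7 : (N : ℝ) ^ (θ - 3 * δ) * 4 ≤ (n : ℝ) ^ (θ - 2 * δ) * 4 := by
          calc (N : ℝ) ^ (θ - 3 * δ) * 4 ≤ (N : ℝ) ^ (θ - 3 * δ) * (N : ℝ) ^ δ :=
                mul_le_mul_of_nonneg_left h4 (by positivity)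
            _ = (N : ℝ) ^ (θ - 2 * δ) := by
                rw [← Real.rpow_add hN0]
                congr 1
                ring
            _ ≤ (4 * n : ℝ) ^ (θ - 2 * δ) := Real.rpow_le_rpow hN0.le hn4r (by linarith)
            _ = (4 : ℝ) ^ (θ - 2 * δ) * (n : ℝ) ^ (θ - 2 * δ) :=
                Real.mul_rpow (by norm_num) (by linarith)
            _ ≤ 4 * (n : ℝ) ^ (θ - 2 * δ) := by
                apply mul_le_mul_of_nonneg_right _ (by positivity)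
                calc (4 : ℝ) ^ (θ - 2 * δ) ≤ (4 : ℝ) ^ (1 : ℝ) :=
                      Real.rpow_le_rpow_of_exponent_le (by norm_num) (by linarith)
                  _ = 4 := Real.rpow_one _
            _ = _ := by ring
        linarith

end Pool.Agent.H605.Web
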