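import Pool.Agent.H605.Web.Defs

/-!
# Covering `[1, N]` by few translates of a set of differences
-/

set_option autoImplicit false

open Finset

namespace Pool.Agent.H605.Web

/-- one more translate -/
theorem one_translate {N : ℕ} (D : Finset ℕ) (hD : ∀ d ∈ D, 1 ≤ d ∧ d ≤ N) (U : Finset ℤ)
    (hU : ∀ i ∈ U, 1 ≤ i ∧ i ≤ N) (hN : 1 ≤ N) :
    ∃ t : ℤ, (U.card : ℝ) * D.card ≤ 2 * N *
      ((U.filter fun i => ∃ d ∈ D, i = d + t).card : ℝ) := by
  classical
  obtain ⟨J, hJ⟩ : ∃ J : Finset ℤ, J = Icc (1 - N : ℤ) (N - 1) := ⟨_, rfl⟩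
  have hne : J.Nonempty := ⟨0, by rw [hJ, mem_Icc]; omega⟩
  obtain ⟨t, ht, hmax⟩ := J.exists_max_image
    (fun t => (U.filter fun i => ∃ d ∈ D, i = d + t).card) hne
  refine ⟨t, ?_⟩
  have h1 : ∑ s ∈ J, (U.filter fun i => ∃ d ∈ D, i = d + s).card = U.card * D.card := by
    have h2 : ∀ s ∈ J, (U.filter fun i => ∃ d ∈ D, i = d + s).card =
        ∑ i ∈ U, if (∃ d ∈ D, i = (d : ℤ) + s) then 1 else 0 := by
      intro s _
      rw [Finset.card_filter]
    rw [Finset.sum_congr rfl h2, Finset.sum_comm]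
    have h3 : ∀ i ∈ U, (∑ s ∈ J, if (∃ d ∈ D, i = (d : ℤ) + s) then 1 else 0) = D.card := by
      intro i hi
      rw [← Finset.card_filter]
      have h4 : (J.filter fun s => ∃ d ∈ D, i = (d : ℤ) + s) = D.image (fun d : ℕ => i - d) := by
        ext s
        rw [mem_filter, mem_image, hJ, mem_Icc]
        constructor
        · rintro ⟨-, d, hd, h⟩
          exact ⟨d, hd, by omega⟩
        · rintro ⟨d, hd, h⟩
          have h5 := hD d hd
          have h6 := hU i hi
          exact ⟨by omega, d, hd, by omega⟩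
      rw [h4, Finset.card_image_of_injective]
      intro a b hab
      simp only at hab
      omega
    rw [Finset.sum_congr rfl h3, Finset.sum_const, smul_eq_mul]
  have h7 : U.card * D.card ≤ (2 * N) * (U.filter fun i => ∃ d ∈ D, i = d + t).card := by
    rw [← h1]
    calc ∑ s ∈ J, (U.filter fun i => ∃ d ∈ D, i = d + s).card
        ≤ ∑ s ∈ J, (U.filter fun i => ∃ d ∈ D, i = d + t).card :=
          Finset.sum_le_sum fun s hs => hmax s hs
      _ = J.card * (U.filter fun i => ∃ d ∈ D, i = d + t).card := by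
          rw [Finset.sum_const, smul_eq_mul]
      _ ≤ _ := by
          apply Nat.mul_le_mul_right
          rw [hJ, Int.card_Icc]
          omega
  exact_mod_cast h7

/-- `s` translates -/
theorem many_translates {N : ℕ} (D : Finset ℕ) (hD : ∀ d ∈ D, 1 ≤ d ∧ d ≤ N) (hN : 1 ≤ N)
    (s : ℕ) : ∃ T : Finset ℤ, T.card ≤ s ∧
      (((Icc (1 : ℤ) N).filter fun i => ∀ t ∈ T, ∀ d ∈ D, i ≠ d + t).card : ℝ) ≤
        (1 - (D.card : ℝ) / (2 * N)) ^ s * N := by
  classical
  have hNr : (1 : ℝ) ≤ N := by exact_mod_cast hN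
  induction s with
  | zero =>
    refine ⟨∅, by simp, ?_⟩
    rw [pow_zero, one_mul]
    have h1 : ((Icc (1 : ℤ) N).filter fun i => ∀ t ∈ (∅ : Finset ℤ), ∀ d ∈ D, i ≠ d + t).card ≤
        N := by
      refine (Finset.card_filter_le _ _).trans ?_
      rw [Int.card_Icc]
      omega
    exact_mod_cast h1
  | succ s ih =>
    obtain ⟨T, hT1, hT2⟩ := ih
    obtain ⟨U, hU⟩ : ∃ U, U = (Icc (1 : ℤ) N).filter fun i => ∀ t ∈ T, ∀ d ∈ D, i ≠ d + t :=
      ⟨_, rfl⟩
    rw [← hU] at hT2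
    obtain ⟨t, ht⟩ := one_translate D hD U (fun i hi => by
      rw [hU, mem_filter, mem_Icc] at hi
      exact hi.1) hN
    refine ⟨insert t T, (Finset.card_insert_le _ _).trans (by omega), ?_⟩
    have h1 : ((Icc (1 : ℤ) N).filter fun i => ∀ t' ∈ insert t T, ∀ d ∈ D, i ≠ d + t') =
        U \ (U.filter fun i => ∃ d ∈ D, i = d + t) := by
      ext i
      rw [mem_sdiff, mem_filter, mem_filter, hU, mem_filter]
      constructor
      · rintro ⟨h1, h2⟩
        refine ⟨⟨h1, fun t' ht' => h2 t' (mem_insert_of_mem ht')⟩, ?_⟩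
        rintro ⟨-, d, hd, h3⟩
        exact h2 t (mem_insert_self _ _) d hd h3
      · rintro ⟨⟨h1, h2⟩, h3⟩
        refine ⟨h1, fun t' ht' => ?_⟩
        rcases mem_insert.1 ht' with rfl | h4
        · intro d hd h5
          exact h3 ⟨⟨h1, h2⟩, d, hd, h5⟩
        · exact h2 t' h4
    rw [h1, Finset.card_sdiff_of_subset (Finset.filter_subset _ _),
      Nat.cast_sub (Finset.card_le_card (Finset.filter_subset _ _))]
    have h2 : (U.card : ℝ) * (D.card / (2 * N)) ≤
        ((U.filter fun i => ∃ d ∈ D, i = d + t).card : ℝ) := by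
      rw [← mul_div_assoc, div_le_iff₀ (by positivity), mul_comm _ (2 * (N : ℝ))]
      exact ht
    have h3 : 0 ≤ 1 - (D.card : ℝ) / (2 * N) := by
      have h4 : (D.card : ℝ) ≤ N := by
        have : D ⊆ Icc 1 N := fun d hd => mem_Icc.2 (hD d hd)
        have := Finset.card_le_card this
        rw [Nat.card_Icc, Nat.add_sub_cancel] at this
        exact_mod_cast this
      have h5 : (D.card : ℝ) / (2 * N) ≤ 1 := by
        rw [div_le_one (by positivity)]
        linarith
      linarith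
    calc (U.card : ℝ) - ((U.filter fun i => ∃ d ∈ D, i = d + t).card : ℝ)
        ≤ U.card - U.card * (D.card / (2 * N)) := by linarith
      _ = (1 - (D.card : ℝ) / (2 * N)) * U.card := by ring
      _ ≤ (1 - (D.card : ℝ) / (2 * N)) * ((1 - (D.card : ℝ) / (2 * N)) ^ s * N) :=
          mul_le_mul_of_nonneg_left hT2 h3
      _ = _ := by rw [pow_succ]; ring

/-- A set `D ⊆ [1, N]` has at most `(2 N / |D|) (log N + 1) + 1` translates covering `[1, N]`. -/
theorem translates {N : ℕ} (D : Finset ℕ) (hD : ∀ d ∈ D, 1 ≤ d ∧ d ≤ N) (hne : D.Nonempty) :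
    ∃ T : Finset ℤ, (T.card : ℝ) ≤ 2 * N / D.card * Real.log N + 1 ∧
      ∀ i : ℕ, 1 ≤ i → i ≤ N → ∃ t ∈ T, ∃ d ∈ D, (i : ℤ) = d + t := by
  classical
  obtain ⟨d0, hd0⟩ := hne
  have hN : 1 ≤ N := (hD d0 hd0).1.trans (hD d0 hd0).2
  have hNr : (1 : ℝ) ≤ N := by exact_mod_cast hN
  have hDpos : (0 : ℝ) < D.card := by
    exact_mod_cast Finset.card_pos.2 ⟨d0, hd0⟩
  obtain ⟨ρ, hρ⟩ : ∃ ρ : ℝ, ρ = (D.card : ℝ) / (2 * N) := ⟨_, rfl⟩
  have hρ0 : 0 < ρ := by rw [hρ]; positivity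
  have hlog : 0 ≤ Real.log N := Real.log_nonneg hNr
  obtain ⟨s, hs⟩ : ∃ s : ℕ, s = ⌊Real.log N / ρ⌋₊ + 1 := ⟨_, rfl⟩
  obtain ⟨T, hT1, hT2⟩ := many_translates D hD hN s
  rw [← hρ] at hT2
  have hs1 : Real.log N / ρ < s := by
    rw [hs]; push_cast; exact Nat.lt_floor_add_one _
  have hs2 : (s : ℝ) ≤ Real.log N / ρ + 1 := by
    rw [hs]; push_cast
    have := Nat.floor_le (show 0 ≤ Real.log N / ρ by positivity)
    linarith
  refine ⟨T, ?_, ?_⟩
  · have h1 : (T.card : ℝ) ≤ s := by exact_mod_cast hT1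
    refine h1.trans (hs2.trans (le_of_eq ?_))
    rw [hρ]
    field_simp
  · have h0 : (1 - ρ) ^ s * N < 1 := by
      have h1 : 1 - ρ ≤ Real.exp (-ρ) := by
        have := Real.add_one_le_exp (-ρ)
        linarith
      have h2 : 0 ≤ 1 - ρ := by
        have h4 : (D.card : ℝ) ≤ N := by
          have : D ⊆ Icc 1 N := fun d hd => mem_Icc.2 (hD d hd)
          have := Finset.card_le_card this
          rw [Nat.card_Icc, Nat.add_sub_cancel] at this
          exact_mod_cast this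
        have h5 : ρ ≤ 1 := by
          rw [hρ, div_le_one (by positivity)]
          linarith
        linarith
      calc (1 - ρ) ^ s * N ≤ (Real.exp (-ρ)) ^ s * N := by
            apply mul_le_mul_of_nonneg_right _ (by positivity)
            exact pow_le_pow_left₀ h2 h1 s
        _ = Real.exp (s * (-ρ)) * Real.exp (Real.log N) := by
            rw [← Real.exp_nat_mul, Real.exp_log (by linarith)]
        _ = Real.exp (s * (-ρ) + Real.log N) := by rw [Real.exp_add]
        _ < 1 := by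
            rw [Real.exp_lt_one_iff]
            rw [div_lt_iff₀ hρ0] at hs1
            linarith
    have h1 : (((Icc (1 : ℤ) N).filter fun i => ∀ t ∈ T, ∀ d ∈ D, i ≠ d + t).card : ℝ) < 1 :=
      lt_of_le_of_lt hT2 h0
    have h2 : ((Icc (1 : ℤ) N).filter fun i => ∀ t ∈ T, ∀ d ∈ D, i ≠ d + t).card = 0 := by
      have : ((Icc (1 : ℤ) N).filter fun i => ∀ t ∈ T, ∀ d ∈ D, i ≠ d + t).card < 1 := by
        exact_mod_cast h1
      omega
    rw [Finset.card_eq_zero] at h2
    intro i hi1 hi2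
    by_contra hcon
    push Not at hcon
    have h3 : (i : ℤ) ∈ ((Icc (1 : ℤ) N).filter fun i => ∀ t ∈ T, ∀ d ∈ D, i ≠ d + t) := by
      rw [mem_filter, mem_Icc]
      exact ⟨⟨by omega, by omega⟩, hcon⟩
    rw [h2] at h3
    exact Finset.notMem_empty _ h3

/-- adding translates: the progressions for `D + T` -/
theorem fill (E : Finset ℤ) (D : Finset ℕ) (T : Finset ℤ) (K : ℝ) (hK : 0 ≤ K)
    (hE : ∀ d ∈ D, HasAP E K d) : ∃ E' : Finset ℤ,
      (E'.card : ℝ) ≤ T.card * (K + 1) * E.card ∧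
      ∀ i : ℕ, (∃ t ∈ T, ∃ d ∈ D, (i : ℤ) = d + t) → HasAP E' K i := by
  classical
  refine ⟨((T ×ˢ range (⌊K⌋₊ + 1)) ×ˢ E).image fun z => z.2 + z.1.2 * z.1.1, ?_, ?_⟩
  · have h1 := Finset.card_image_le (s := (T ×ˢ range (⌊K⌋₊ + 1)) ×ˢ E)
      (f := fun z => z.2 + z.1.2 * z.1.1)
    rw [card_product, card_product, card_range] at h1
    have h2 : (⌊K⌋₊ : ℝ) ≤ K := Nat.floor_le hK
    calc _ ≤ ((T.card * (⌊K⌋₊ + 1) * E.card : ℕ) : ℝ) := by exact_mod_cast h1
      _ = T.card * (⌊K⌋₊ + 1) * E.card := by push_cast; ring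
      _ ≤ _ := by
        apply mul_le_mul_of_nonneg_right _ (by positivity)
        apply mul_le_mul_of_nonneg_left _ (by positivity)
        linarith
  · rintro i ⟨t, ht, d, hd, hi⟩
    obtain ⟨a, ha⟩ := hE d hd
    refine ⟨a, fun j hj => ?_⟩
    rw [mem_image]
    refine ⟨((t, j), a + j * d), ?_, ?_⟩
    · rw [mem_product, mem_product, mem_range]
      refine ⟨⟨ht, ?_⟩, ha j hj⟩
      have := Nat.le_floor hj
      simp only
      omega
    · simp only
      rw [hi]
      ring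

end Pool.Agent.H605.Web
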