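import Pool.Agent.H605.Web.Impl1

/-!
# Residue classes in long intervals, window by window
-/

set_option autoImplicit false

open Finset Filter

namespace Pool.Agent.H605.Web

/-- the part of `(u, v]` in the residue classes `r d` modulo `d`, `d ∈ D` -/
noncomputable def Part (D : Finset ℕ) (r : ℕ → ℤ) (u v : ℤ) : Finset ℤ :=
  (Ioc u v).filter fun y => ∃ d ∈ D, (d : ℤ) ∣ y - r d

theorem mem_Part {D : Finset ℕ} {r : ℕ → ℤ} {u v y : ℤ} :
    y ∈ Part D r u v ↔ (u < y ∧ y ≤ v) ∧ ∃ d ∈ D, (d : ℤ) ∣ y - r d := by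
  rw [Part, mem_filter, mem_Ioc]

theorem one_window {M : ℕ} {K : ℝ} {D : Finset ℕ} (hD : ∀ d ∈ D, 1 ≤ d ∧ d ≤ M)
    (r : ℕ → ℤ) (L : ℕ) (hL : (K + 1) * M ≤ L) (u : ℤ) :
    ∀ d ∈ D, HasAP (Part D r u (u + L)) K d := by
  intro d hd
  obtain ⟨h1, h2⟩ := hD d hd
  have hdpos : (0 : ℤ) < d := by exact_mod_cast h1
  have h3 := Int.emod_nonneg (r d - u - 1) hdpos.ne'
  have h4 := Int.emod_lt_of_pos (r d - u - 1) hdpos
  have h5 := Int.emod_add_mul_ediv (r d - u - 1) d
  refine ⟨u + 1 + (r d - u - 1) % d, fun j hj => ?_⟩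
  rw [mem_Part]
  have h6 : ((j + 1) * d : ℤ) ≤ L := by
    have h7 : ((j : ℝ) + 1) * d ≤ L := by
      calc ((j : ℝ) + 1) * d ≤ (K + 1) * M := by
            have hd2 : (d : ℝ) ≤ M := by exact_mod_cast h2
            have hd0 : (0 : ℝ) ≤ d := Nat.cast_nonneg _
            have hj0 : (0 : ℝ) ≤ j := Nat.cast_nonneg _
            exact mul_le_mul (by linarith) hd2 hd0 (by linarith)
        _ ≤ _ := hL
    exact_mod_cast h7
  have h8 : (0 : ℤ) ≤ j * d := by positivity
  refine ⟨⟨by linarith, by linarith⟩, d, hd, ?_⟩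
  refine ⟨j - (r d - u - 1) / d, ?_⟩
  linear_combination h5

theorem windows {M : ℕ} {K C : ℝ} {D : Finset ℕ} (hD : ∀ d ∈ D, 1 ≤ d ∧ d ≤ M)
    (h : ∀ E : Finset ℤ, (∀ d ∈ D, HasAP E K d) → (D.card : ℝ) ≤ C * E.card)
    (r : ℕ → ℤ) (L : ℕ) (hL : (K + 1) * M ≤ L) (u : ℤ) (H : ℕ) :
    (H : ℝ) * D.card ≤ C * ((Part D r u (u + H * L)).card : ℝ) := by
  classical
  induction H with
  | zero => simp [Part]
  | succ H ih =>
    have h1 := h _ (one_window hD r L hL (u + H * L))
    have h2 : (Part D r u (u + H * L)).card + (Part D r (u + H * L) (u + H * L + L)).card ≤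
        (Part D r u (u + (H + 1 : ℕ) * L)).card := by
      rw [← Finset.card_union_of_disjoint]
      · apply Finset.card_le_card
        intro y hy
        have hH : (0 : ℤ) ≤ H * L := by positivity
        have hLn : (0 : ℤ) ≤ L := by positivity
        rw [mem_union, mem_Part, mem_Part] at hy
        rw [mem_Part]
        push_cast
        rcases hy with ⟨⟨h3, h4⟩, h5⟩ | ⟨⟨h3, h4⟩, h5⟩
        · exact ⟨⟨h3, by linarith⟩, h5⟩
        · exact ⟨⟨by linarith, by linarith⟩, h5⟩
      · rw [Finset.disjoint_left]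
        intro y hy hy2
        rw [mem_Part] at hy hy2
        linarith [hy.1.2, hy2.1.1]
    have h3 : ((Part D r u (u + H * L)).card : ℝ) +
        ((Part D r (u + H * L) (u + H * L + L)).card : ℝ) ≤
        ((Part D r u (u + (H + 1 : ℕ) * L)).card : ℝ) := by exact_mod_cast h2
    have hC : 0 ≤ C ∨ D.card = 0 := by
      by_contra hcon
      push Not at hcon
      obtain ⟨h4, h5⟩ := hcon
      have h6 : (0 : ℝ) < D.card := by
        have := Nat.pos_of_ne_zero h5
        exact_mod_cast this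
      have h7 : C * ((Part D r (u + H * L) (u + H * L + L)).card : ℝ) ≤ 0 :=
        mul_nonpos_of_nonpos_of_nonneg h4.le (Nat.cast_nonneg _)
      linarith
    rcases hC with hC | hC
    · push_cast at h3 ⊢
      have h8 := mul_le_mul_of_nonneg_left h3 hC
      linarith
    · have hDe : D = ∅ := Finset.card_eq_zero.1 hC
      subst hDe
      simp [Part]

end Pool.Agent.H605.Web
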